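import Mathlib
import Pool.Graph.R_seed8.Helper398.MainEE

set_option autoImplicit false
set_option linter.unusedSectionVars false

/-!
# Explicit thresholds

The proofs of `core` and `near_eq_abs` of the library (`Pool.Graph.R_seed8.Helper398.Core`,
`Pool.Graph.R_seed8.Helper398.Stage2`) with their thresholds as explicit hypotheses.
-/

open Finset
open scoped Pointwise

namespace Pool.Agent.H96.ZF

open Pool.Agent.Helper398

/-- near equality forces a stage with small growth (explicit threshold) -/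
theorem near_eq_abs' (d : ℝ) (hd : 0 < d) (hd2 : d ≤ 1 / 8) (bt : ℝ) (hbt0 : 0 ≤ bt)
    (G : Type) [AddCommGroup G] [DecidableEq G] (θ : ℝ) (hθ : 1 / 2 ≤ θ) (_hθ2 : θ ≤ 1)
    (A : Finset G) (hind : ∀ X ⊆ A, (X.subsetSum.card : ℝ) +
      θ * (1 / 2 - 2 * (d ^ 2 / 64)) * ((A \ X).card : ℝ) ^ 2 -
      bt * (A \ X).card ≤ A.subsetSum.card)
    (hM₀ : (2 + 4 * bt) * 4 / d ^ 2 + 32 / d ^ 2 + bt * 32 / d + 1 ≤ (A.card : ℝ))
    (htot : (A.subsetSum.card : ℝ) ≤ (1 + d ^ 2 / 16) * (θ / 2) * (A.card : ℝ) ^ 2) :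
    ∃ X ⊆ A, ∃ rho : ℕ, d ^ 2 / 32 * A.card ≤ X.card ∧ rho ≤ (A \ X).card ∧
      (1 - 2 * d) * A.card ≤ rho ∧ (∀ y ∈ A \ X, (gr X.subsetSum y : ℝ) ≤ (1 + d) * θ * rho) ∧
      (X.subsetSum.card : ℝ) ≤ 3 * d * θ * (A.card : ℝ) ^ 2 := by
  obtain ⟨η, hη⟩ : ∃ η : ℝ, η = d ^ 2 / 64 := ⟨_, rfl⟩
  have hη0 : 0 < η := by rw [hη]; positivity
  have hη4 : η < 1 / 4 := by rw [hη]; nlinarith
  rw [← hη] at hind
  obtain ⟨n, hn⟩ : ∃ n, n = A.card := ⟨_, rfl⟩
  rw [← hn] at hM₀ htot ⊢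
  have hM' : (2 + 4 * bt) * 4 / d ^ 2 + 32 / d ^ 2 + bt * 32 / d + 1 ≤ (n : ℝ) := hM₀
  have hp1 : 0 < (2 + 4 * bt) * 4 / d ^ 2 := by positivity
  have hp2 : 0 < 32 / d ^ 2 := by positivity
  have hp3 : 0 ≤ bt * 32 / d := by positivity
  have hn0 : (0 : ℝ) < n := by linarith
  have hb1 : (2 + 4 * bt) < d ^ 2 / 4 * n := by
    have : (2 + 4 * bt) * 4 / d ^ 2 < n := by linarith
    rw [div_lt_iff₀ (by positivity)] at this
    linarith
  have hb2 : 1 ≤ d ^ 2 / 32 * n := by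
    have : 32 / d ^ 2 ≤ n := by linarith
    rw [div_le_iff₀ (by positivity)] at this
    linarith
  have hb3 : bt ≤ d / 32 * n := by
    have : bt * 32 / d ≤ n := by linarith
    rw [div_le_iff₀ (by positivity)] at this
    linarith
  -- the initial set
  obtain ⟨k, hk⟩ : ∃ k : ℕ, k = ⌈d ^ 2 / 32 * n⌉₊ := ⟨_, rfl⟩
  have hk1 : d ^ 2 / 32 * n ≤ k := by rw [hk]; exact Nat.le_ceil _
  have hk2 : (k : ℝ) < d ^ 2 / 32 * n + 1 := by rw [hk]; exact Nat.ceil_lt_add_one (by positivity)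
  obtain ⟨I, hI⟩ : ∃ I : ℕ, I = ⌊d * n⌋₊ := ⟨_, rfl⟩
  have hI1 : (I : ℝ) ≤ d * n := by rw [hI]; exact Nat.floor_le (by positivity)
  have hI2 : d * n < I + 1 := by rw [hI]; exact Nat.lt_floor_add_one _
  have hd3 : d ^ 2 ≤ 1 / 8 * d := by
    rw [sq]; exact mul_le_mul_of_nonneg_right hd2 hd.le
  have hd4 : d ^ 2 * n ≤ 1 / 8 * d * n := mul_le_mul_of_nonneg_right hd3 hn0.le
  have hd5 : d * n ≤ 1 / 8 * n := mul_le_mul_of_nonneg_right hd2 hn0.le
  have hd6 : 0 ≤ d * n := mul_nonneg hd.le hn0.le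
  have hkI : (k : ℝ) + I ≤ 2 * d * n := by linarith
  have hkI2 : (k : ℝ) + I ≤ 1 / 4 * n := by linarith
  have hkIn : k + I ≤ n := by
    have : ((k + I : ℕ) : ℝ) ≤ n := by push_cast; linarith
    exact_mod_cast this
  obtain ⟨X0, hX0A, hX0⟩ := Finset.exists_subset_card_eq (show k ≤ A.card by omega)
  obtain ⟨rho, hrho⟩ : ∃ rho : ℕ, rho = n - k - I := ⟨_, rfl⟩
  have hrho' : (rho : ℝ) = n - k - I := by
    have : rho + k + I = n := by omega
    have h2 : ((rho + k + I : ℕ) : ℝ) = n := by rw [this]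
    push_cast at h2
    linarith
  rcases exists_stage A X0 hX0A ((1 + d) * θ * rho) I with ⟨X, h1, h2, h3, h4⟩ | ⟨X, h1, h2, h3, h4⟩
  · refine ⟨X, h2, rho, ?_, ?_, ?_, h4, ?_⟩
    · have : (k : ℝ) ≤ X.card := by
        rw [← hX0]
        exact_mod_cast Finset.card_le_card h1
      linarith
    · rw [Finset.card_sdiff_of_subset h2]
      omega
    · rw [hrho']; linarith
    · have h5 := hind X h2
      have h6 : (rho : ℝ) ≤ (A \ X).card := by
        have : rho ≤ (A \ X).card := by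
          rw [Finset.card_sdiff_of_subset h2]
          omega
        exact_mod_cast this
      have h7 : ((A \ X).card : ℝ) ≤ n := by
        have : (A \ X).card ≤ A.card := Finset.card_le_card Finset.sdiff_subset
        rw [hn]
        exact_mod_cast this
      have h8 : (rho : ℝ) ≥ (1 - 2 * d) * n := by rw [hrho']; linarith
      have h9 : ((1 - 2 * d) * (n : ℝ)) ^ 2 ≤ ((A \ X).card : ℝ) ^ 2 := by
        apply pow_le_pow_left₀ _ (by linarith)
        apply mul_nonneg _ hn0.le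
        linarith
      have h10 : θ * (1 / 2 - 2 * η) * ((1 - 2 * d) * (n : ℝ)) ^ 2 ≤
          θ * (1 / 2 - 2 * η) * ((A \ X).card : ℝ) ^ 2 := by
        apply mul_le_mul_of_nonneg_left h9
        apply mul_nonneg (by linarith)
        linarith
      have h11 : bt * (A \ X).card ≤ bt * n := mul_le_mul_of_nonneg_left h7 hbt0
      have h12 : bt * n ≤ d / 32 * n * n := mul_le_mul_of_nonneg_right hb3 hn0.le
      have h13 : (X.subsetSum.card : ℝ) ≤ (1 + d ^ 2 / 16) * (θ / 2) * (n : ℝ) ^ 2 -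
          θ * (1 / 2 - 2 * η) * ((1 - 2 * d) * (n : ℝ)) ^ 2 + d / 32 * n * n := by linarith
      refine le_trans h13 ?_
      have h14 : (1 + d ^ 2 / 16) * (θ / 2) * (n : ℝ) ^ 2 -
          θ * (1 / 2 - 2 * η) * ((1 - 2 * d) * (n : ℝ)) ^ 2 + d / 32 * n * n =
          (n : ℝ) ^ 2 * (θ / 2 * ((1 + d ^ 2 / 16) - (1 - 4 * η) * (1 - 2 * d) ^ 2) + d / 32) := by
        ring
      rw [h14]
      have h15 : (1 + d ^ 2 / 16) - (1 - 4 * η) * (1 - 2 * d) ^ 2 ≤ 5 * d := by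
        have h16 : (1 - 4 * η) * (1 - 2 * d) ^ 2 ≥ 1 - 4 * d - 4 * η := by
          have e17 : (1 - 2 * d) ^ 2 = 1 - 4 * d + 4 * d ^ 2 := by ring
          have h17 : (1 - 2 * d) ^ 2 ≤ 1 := by rw [e17]; linarith
          have h18 := mul_le_mul_of_nonneg_left h17 hη0.le
          have e18 : (1 - 4 * η) * (1 - 2 * d) ^ 2 = (1 - 2 * d) ^ 2 - 4 * (η * (1 - 2 * d) ^ 2) := by
            ring
          have h19 : 0 ≤ d ^ 2 := sq_nonneg d
          rw [e18]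
          linarith
        rw [hη] at h16 ⊢
        linarith
      have h16 : θ / 2 * ((1 + d ^ 2 / 16) - (1 - 4 * η) * (1 - 2 * d) ^ 2) ≤ θ / 2 * (5 * d) :=
        mul_le_mul_of_nonneg_left h15 (by linarith)
      have h17 : θ / 2 * ((1 + d ^ 2 / 16) - (1 - 4 * η) * (1 - 2 * d) ^ 2) + d / 32 ≤
          3 * d * θ := by
        have h18 : d * (1 / 2) ≤ d * θ := mul_le_mul_of_nonneg_left hθ hd.le
        linarith
      calc (n : ℝ) ^ 2 * (θ / 2 * ((1 + d ^ 2 / 16) - (1 - 4 * η) * (1 - 2 * d) ^ 2) + d / 32) ≤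
          (n : ℝ) ^ 2 * (3 * d * θ) := mul_le_mul_of_nonneg_left h17 (by positivity)
        _ = _ := by ring
  · exfalso
    have h5 := hind X h2
    have h6 : (A \ X).card = rho := by
      rw [Finset.card_sdiff_of_subset h2]
      omega
    rw [h6] at h5
    apply stage_arith d (k / n) (I / n) η (d ^ 2 / 16) θ n bt A.subsetSum.card I rho hd hd2 hn0 hθ
      (by positivity) _ _ _ (by positivity) hη rfl hbt0 hb1 _ _ _ htot
    · rw [div_le_iff₀ hn0]; linarith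
    · rw [div_le_iff₀ hn0]; exact hI1
    · rw [le_div_iff₀ hn0]
      have : (d - 1 / n) * n = d * n - 1 := by field_simp
      linarith
    · field_simp
    · rw [hrho']; field_simp
    · linarith



/-- The core theorem of the library with its threshold made explicit. -/
theorem core' (δ c : ℝ) (hδ : 0 < δ) (hδ2 : δ ≤ 1 / 10) (hc : 0 < c)
    (G : Type) [AddCommGroup G] [Fintype G] [DecidableEq G] (R B : Finset G) (n : ℕ) (lam : ℝ)
    (hgen : AddSubgroup.closure (R : Set G) = ⊤)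
    (hM₀ : 3072 * ((⌈6 / δ⌉₊ : ℕ) : ℝ) ^ 2 / ((δ / 16) ^ 4 * c ^ 2) +
      2 * ((⌈6 / δ⌉₊ : ℕ) : ℝ) / ((δ / 16) ^ 2 * c) + 16 / ((δ / 16) ^ 2 * c) + 1 ≤ (n : ℝ))
    (hRn : R.card ≤ n) (hlam : 0 < lam) (hlamn : lam ≤ 2 * n)
    (hT : 20 * lam ≤ 11 * (sym R).card) (hBn : c * (n : ℝ) ^ 2 ≤ B.card)
    (hBG : (B.card : ℝ) < δ / 16 * Fintype.card G) (hgr : ∀ y ∈ R, (gr B y : ℝ) ≤ lam) :
    ∃ (W L : ℕ) (w : G →+ ZMod W), 0 < W ∧ 0 < L ∧ Function.Surjective w ∧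
      ((Nat.card w.ker : ℝ)) * L ≤ (1 + δ) * lam ∧ ∀ t ∈ R, |(w t).valMinAbs| ≤ L := by
  obtain ⟨θ, hθ⟩ : ∃ θ : ℝ, θ = δ / 16 := ⟨_, rfl⟩
  have hθ0 : 0 < θ := by rw [hθ]; positivity
  have hθ4 : θ ≤ 1 / 160 := by rw [hθ]; linarith
  obtain ⟨J, hJ⟩ : ∃ J : ℕ, J = ⌈6 / δ⌉₊ := ⟨_, rfl⟩
  have hJ1 : 6 / δ ≤ (J : ℝ) := by rw [hJ]; exact Nat.le_ceil _
  have hJ6 : 6 ≤ (J : ℝ) * δ := by rwa [div_le_iff₀ hδ] at hJ1
  have hJ60 : (5 : ℝ) ≤ J := by
    have h := mul_le_mul_of_nonneg_left hδ2 (Nat.cast_nonneg (α := ℝ) J)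
    linarith
  have hJ5 : 5 ≤ J := by exact_mod_cast hJ60
  have hM' : 3072 * (J : ℝ) ^ 2 / (θ ^ 4 * c ^ 2) + 2 * J / (θ ^ 2 * c) + 16 / (θ ^ 2 * c) + 1 ≤
    (n : ℝ) := by rw [hJ, hθ]; exact hM₀
  have hp1 : 0 ≤ 3072 * (J : ℝ) ^ 2 / (θ ^ 4 * c ^ 2) := by positivity
  have hp2 : 0 ≤ 2 * (J : ℝ) / (θ ^ 2 * c) := by positivity
  have hp3 : 0 ≤ 16 / (θ ^ 2 * c) := by positivity
  have hn1 : (1 : ℝ) ≤ n := by linarith
  have hn0 : (0 : ℝ) < n := by linarith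
  have hq1 : 3072 * (J : ℝ) ^ 2 ≤ θ ^ 4 * c ^ 2 * n := by
    have : 3072 * (J : ℝ) ^ 2 / (θ ^ 4 * c ^ 2) ≤ n := by linarith
    rw [div_le_iff₀ (by positivity)] at this
    linarith
  have hq2 : 2 * (J : ℝ) ≤ θ ^ 2 * c * n := by
    have : 2 * (J : ℝ) / (θ ^ 2 * c) ≤ n := by linarith
    rw [div_le_iff₀ (by positivity)] at this
    linarith
  have hq3 : 16 ≤ θ ^ 2 * c * n := by
    have : 16 / (θ ^ 2 * c) ≤ n := by linarith
    rw [div_le_iff₀ (by positivity)] at this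
    linarith
  obtain ⟨b, hb⟩ : ∃ b : ℝ, b = B.card := ⟨_, rfl⟩
  rw [← hb] at hBn hBG
  have hb0 : 0 < b := lt_of_lt_of_le (by positivity) hBn
  have hBc : 0 < B.card := by
    have : (0 : ℝ) < B.card := by rw [← hb]; exact hb0
    exact_mod_cast this
  obtain ⟨T, hTdef⟩ : ∃ T, T = sym R := ⟨_, rfl⟩
  have hT0 : (0 : G) ∈ T := by rw [hTdef]; exact zero_mem_sym R
  have hTneg : ∀ t ∈ T, -t ∈ T := by rw [hTdef]; exact neg_mem_sym R
  have hTgen : AddSubgroup.closure (T : Set G) = ⊤ := by rw [hTdef]; exact closure_sym R hgen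
  have hTgr : ∀ t ∈ T, (gr B t : ℝ) ≤ lam := by rw [hTdef]; exact gr_sym B R lam hlam.le hgr
  have hTle : T.card ≤ 2 * n + 1 := by
    rw [hTdef]
    have h1 : (sym R).card ≤ (R ∪ -R).card + 1 := Finset.card_insert_le _ _
    have h2 : (R ∪ -R).card ≤ R.card + (-R).card := Finset.card_union_le _ _
    rw [Finset.card_neg] at h2
    omega
  rw [← hTdef] at hT
  have hTle' : (T.card : ℝ) ≤ 3 * n := by
    have : (T.card : ℝ) ≤ 2 * n + 1 := by exact_mod_cast hTle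
    linarith
  have hθb : 2 * (n : ℝ) * J ≤ θ ^ 2 * b := by
    have h1 : θ ^ 2 * (c * (n : ℝ) ^ 2) ≤ θ ^ 2 * b := mul_le_mul_of_nonneg_left hBn (by positivity)
    have h2 : 2 * (J : ℝ) * n ≤ θ ^ 2 * c * n * n := mul_le_mul_of_nonneg_right hq2 hn0.le
    linarith
  have hbG' : (B.card : ℝ) < θ * Fintype.card G := by rw [← hb, hθ]; exact hBG
  -- the J-fold sumset
  have hJlam : (J : ℝ) * lam ≤ θ ^ 2 * B.card := by
    rw [← hb]
    have : (J : ℝ) * lam ≤ J * (2 * n) := mul_le_mul_of_nonneg_left hlamn (by linarith)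
    linarith
  have hJcard := it_linear B T hTneg hT0 hTgen lam θ hlam hTgr J (by omega) hθ0 (by linarith)
    hJlam hBc hbG'
  rw [hθ] at hJcard
  have hcount := core_arith1 δ hδ hδ2 J lam _ hlam hJ6 hJ60 hJcard
  -- the K-fold sumset
  obtain ⟨K, hK⟩ : ∃ K : ℕ, K = ⌊θ ^ 2 * b / lam⌋₊ := ⟨_, rfl⟩
  have hK1 : (K : ℝ) ≤ θ ^ 2 * b / lam := by rw [hK]; exact Nat.floor_le (by positivity)
  have hK2 : θ ^ 2 * b / lam < K + 1 := by rw [hK]; exact Nat.lt_floor_add_one _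
  have hKlam : (K : ℝ) * lam ≤ θ ^ 2 * b := by rwa [le_div_iff₀ hlam] at hK1
  have hKbig : θ ^ 2 * c * n / 4 ≤ K := by
    have h1 : θ ^ 2 * c * n / 2 ≤ θ ^ 2 * b / lam := by
      rw [le_div_iff₀ hlam]
      have h2 : θ ^ 2 * c * n / 2 * lam ≤ θ ^ 2 * c * n / 2 * (2 * n) :=
        mul_le_mul_of_nonneg_left hlamn (by positivity)
      have h3 : θ ^ 2 * (c * (n : ℝ) ^ 2) ≤ θ ^ 2 * b :=
        mul_le_mul_of_nonneg_left hBn (by positivity)
      linarith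
    linarith
  have hK4 : (7 : ℝ) ≤ K := by
    have h1 : θ ^ 2 * c * n / 2 ≤ θ ^ 2 * b / lam := by
      rw [le_div_iff₀ hlam]
      have h2 : θ ^ 2 * c * n / 2 * lam ≤ θ ^ 2 * c * n / 2 * (2 * n) :=
        mul_le_mul_of_nonneg_left hlamn (by positivity)
      have h3 : θ ^ 2 * (c * (n : ℝ) ^ 2) ≤ θ ^ 2 * b :=
        mul_le_mul_of_nonneg_left hBn (by positivity)
      linarith
    linarith
  have hKpos : 0 < K := by
    have : (0 : ℝ) < K := by linarith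
    exact_mod_cast this
  have hKcard := it_linear B T hTneg hT0 hTgen lam θ hlam hTgr K hKpos hθ0 (by linarith)
    (by rw [← hb]; exact hKlam) hBc hbG'
  have hKcard2 : ((it T K).card : ℝ) ≤ 5 / 2 * (K + 1) * lam := by
    refine hKcard.trans ?_
    have h1 : 1 + 4 * θ ^ 2 ≤ 5 / 4 := by
      have h := mul_le_mul_of_nonneg_right hθ4 hθ0.le
      rw [sq]; linarith
    have h2 : 2 * ((K : ℝ) + 1) * (1 + 4 * θ ^ 2) ≤ 2 * (K + 1) * (5 / 4) :=
      mul_le_mul_of_nonneg_left h1 (by positivity)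
    have h3 := mul_le_mul_of_nonneg_right h2 hlam.le
    linarith
  have hKne := it_ne_univ B T lam θ hTgr K hθ0 (by linarith) (by rw [← hb]; exact hKlam) hBc hbG'
  have hGb : b ≤ θ * Fintype.card G := by rw [hb]; exact hbG'.le
  have hGpos : (0 : ℝ) < Fintype.card G := by exact_mod_cast Fintype.card_pos
  have hhalf : 2 * (it T K).card ≤ Fintype.card G := by
    have h1 : 5 / 2 * ((K : ℝ) + 1) * lam ≤ 5 * (θ ^ 2 * b) := by
      have h2 : lam ≤ K * lam := le_mul_of_one_le_left hlam.le (by linarith)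
      linarith
    have h2 : θ ^ 2 * b ≤ θ ^ 2 * (θ * Fintype.card G) :=
      mul_le_mul_of_nonneg_left hGb (by positivity)
    have h3 : θ ^ 3 ≤ 1 / 160 := by
      have h4 : θ * θ ≤ 1 / 160 * θ := mul_le_mul_of_nonneg_right hθ4 hθ0.le
      have h5 := mul_le_mul_of_nonneg_right hθ4 (by positivity : (0 : ℝ) ≤ θ ^ 2)
      have e : θ ^ 3 = θ * θ ^ 2 := by ring
      rw [e]
      rw [sq] at h5 ⊢
      linarith
    have h4 : θ ^ 2 * (θ * Fintype.card G) ≤ 1 / 160 * Fintype.card G := by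
      have := mul_le_mul_of_nonneg_right h3 hGpos.le
      linarith
    have h5 : (2 : ℝ) * (it T K).card ≤ Fintype.card G := by linarith
    exact_mod_cast h5
  have hT1ne : sym R ≠ univ := by
    intro h
    have h1 : it T 1 = univ := by
      show ({0} : Finset G) + T = univ
      rw [Finset.singleton_zero, zero_add, hTdef]; exact h
    apply hKne
    have h2 := it_mono T hT0 (show 1 ≤ K by omega)
    rw [h1] at h2
    exact Finset.univ_subset_iff.1 h2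
  obtain ⟨H, HF, κ, -, hκ1, -, -, hκ⟩ := iso_sym R hgen hT1ne
  rw [← hTdef] at hκ hκ1
  have hlow : 1 + (K / 2) * κ ≤ (it T (K / 2)).card := by
    rcases it_card T κ hκ hT0 (K / 2) with h | h
    · exfalso
      apply hKne
      have h2 := it_mono T hT0 (show K / 2 ≤ K by omega)
      rw [h] at h2
      exact Finset.univ_subset_iff.1 h2
    · exact h
  have hdoub : ((it T K).card : ℝ) ≤ 8 * (it T (K / 2)).card := by
    have h1 : (1 : ℝ) + ((K / 2 : ℕ) : ℝ) * κ ≤ (it T (K / 2)).card := by exact_mod_cast hlow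
    have h2 : ((K : ℝ) - 1) / 2 ≤ ((K / 2 : ℕ) : ℝ) := by
      have h3 : K ≤ 2 * (K / 2) + 1 := by omega
      have h4 : (K : ℝ) ≤ 2 * ((K / 2 : ℕ) : ℝ) + 1 := by exact_mod_cast h3
      linarith
    have h3 : (T.card : ℝ) ≤ 2 * κ := by exact_mod_cast hκ1
    have h4 : 10 / 11 * lam ≤ κ := by linarith
    have h5 : ((K : ℝ) - 1) / 2 * (10 / 11 * lam) ≤ ((K / 2 : ℕ) : ℝ) * κ := by
      apply mul_le_mul h2 h4 (by positivity)
      positivity
    have h6 : 5 / 2 * ((K : ℝ) + 1) * lam ≤ 8 * (((K : ℝ) - 1) / 2 * (10 / 11 * lam)) := by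
      have h7 : 5 / 2 * ((K : ℝ) + 1) ≤ 8 * (((K : ℝ) - 1) / 2 * (10 / 11)) := by linarith
      have h8 := mul_le_mul_of_nonneg_right h7 hlam.le
      linarith
    linarith
  obtain ⟨ψ, hψ, hsum⟩ := exists_char T hT0 hTneg K (by omega) hhalf 8 hdoub
  obtain ⟨D, hD⟩ : ∃ D : ℝ, D = 8 * 8 * T.card / (K : ℝ) ^ 2 := ⟨_, rfl⟩
  rw [← hD] at hsum
  have hKr : (0 : ℝ) < K := by linarith
  have hDt : ∀ t ∈ T, ‖1 - ψ t‖ ^ 2 ≤ D := by
    intro t ht
    exact (Finset.single_le_sum (f := fun t => ‖1 - ψ t‖ ^ 2) (fun i _ => by positivity) ht).trans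
      hsum
  have hDJ : D * (J : ℝ) ^ 2 ≤ 1 := by
    rw [hD, div_mul_eq_mul_div, div_le_one (by positivity)]
    have h1 : (θ ^ 2 * c * n / 4) ^ 2 ≤ (K : ℝ) ^ 2 := pow_le_pow_left₀ (by positivity) hKbig 2
    have h2 : 8 * 8 * (T.card : ℝ) * (J : ℝ) ^ 2 ≤ 8 * 8 * (3 * n) * (J : ℝ) ^ 2 := by
      have := mul_le_mul_of_nonneg_right hTle' (by positivity : (0 : ℝ) ≤ 64 * (J : ℝ) ^ 2)
      linarith
    have h3 : 3072 * (J : ℝ) ^ 2 * n ≤ θ ^ 4 * c ^ 2 * n * n :=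
      mul_le_mul_of_nonneg_right hq1 hn0.le
    have h4 : (θ ^ 2 * c * n / 4) ^ 2 = θ ^ 4 * c ^ 2 * n * n / 16 := by ring
    rw [h4] at h1
    linarith
  obtain ⟨W, L, w, h1, h2, h3, h4, h5⟩ := lattice T hTneg hT0 hTgen ψ hψ J hJ5 D hDt hDJ
    ((1 + δ) * lam) (by
      have h0 : (1 + δ) * lam ≤ 11 / 10 * lam := mul_le_mul_of_nonneg_right (by linarith) hlam.le
      have h1 : 3 * ((1 + δ) * lam) ≤ 3 * (11 / 10 * lam) := by linarith
      have h2 : 0 < T.card := Finset.card_pos.2 ⟨0, hT0⟩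
      have h3 : (0 : ℝ) < T.card := by exact_mod_cast h2
      linarith) hcount
  exact ⟨W, L, w, h1, h2, h3, h4, fun t ht => h5 t (by rw [hTdef]; exact subset_sym R ht)⟩

end Pool.Agent.H96.ZF
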