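import Mathlib
import Pool.Agent.H96.ZF.Main
import Pool.Graph.R_seed8.Y99.ZS.AllGroups

set_option autoImplicit false
set_option linter.unusedSectionVars false

/-!
# Exact and explicit lower bounds in all abelian groups
-/

open Finset
open scoped Pointwise

universe u

namespace Pool.Agent.H96.ZF

open Pool.Agent.Helper398 Pool.Agent.Y99.ZS

/-- Every zero-sum-free set `A` of large cardinality has at least `⌊|A|²/2⌋ + 2` subset sums
(the empty sum included). -/
theorem main_exact' (G : Type) [AddCommGroup G] [Finite G] [DecidableEq G]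
    (A : Finset G) (hZ : ZSF A) (hA : 10 ^ 145 ≤ A.card) :
    A.card ^ 2 / 2 + 2 ≤ A.subsetSum.card := by
  have h1 := main_top' (AddSubgroup.closure (A : Set G)) (toSub (AddSubgroup.closure (A : Set G)) A)
    (closure_toSub A) (ZSF_toSub _ A hZ)
  have h2 : (toSub (AddSubgroup.closure (A : Set G)) A).card = A.card := by
    rw [card_toSub, inSub_closure]
  rw [h2] at h1
  refine (h1 hA).trans ?_
  apply Finset.card_le_card_of_injOn (fun x : AddSubgroup.closure (A : Set G) => (x : G))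
  · intro x hx
    rw [Finset.mem_coe, Finset.mem_subsetSum_iff] at hx
    obtain ⟨B, hB, rfl⟩ := hx
    rw [Finset.mem_coe, Finset.mem_subsetSum_iff]
    refine ⟨B.map (Function.Embedding.subtype _), ?_, (sum_coe_sub _ B).symm⟩
    intro y hy
    rw [Finset.mem_map] at hy
    obtain ⟨z, hz, rfl⟩ := hy
    exact (mem_toSub _ _ _).1 (hB hz)
  · intro x _ y _ hxy
    exact Subtype.ext hxy

/-- Every zero-sum-free set in an abelian group has a zero-sum-free copy in a finite abelian group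
with the same cardinality and not more subset sums (from the proof of `exact_all` in the library,
`Pool.Graph.R_seed8.Y99.ZS.AllGroups`). -/
theorem transfer (G : Type u) [AddCommGroup G] [DecidableEq G] (A : Finset G) (hZ : ZSF A) :
    ∃ (H : Type) (_ : AddCommGroup H) (_ : Finite H) (_ : DecidableEq H) (A' : Finset H),
      ZSF A' ∧ A'.card = A.card ∧ A'.subsetSum.card ≤ A.subsetSum.card := by
  classical
  -- the finite set of the elements to be detected
  obtain ⟨D, hD⟩ : ∃ D : Finset G,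
    D = (A.subsetSum ∪ (A ×ˢ A).image (fun p => p.1 - p.2)).erase 0 := ⟨_, rfl⟩
  have h1 : ∀ d : D, ∃ c : CharacterModule G, c d.1 ≠ 0 := by
    intro d
    have hd : (d : G) ∈ (A.subsetSum ∪ (A ×ˢ A).image (fun p => p.1 - p.2)).erase 0 := by
      rw [← hD]; exact d.2
    exact CharacterModule.exists_character_apply_ne_zero_of_ne_zero (Finset.ne_of_mem_erase hd)
  choose c hc using h1
  let e := D.equivFin
  let φ : G →+ (Fin D.card → AddCircle (1 : ℚ)) :=
    { toFun := fun g i => c (e.symm i) g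
      map_zero' := by
        funext i
        exact map_zero (c (e.symm i))
      map_add' := fun a b => by
        funext i
        exact map_add (c (e.symm i)) a b }
  have hφ : ∀ d ∈ D, φ d ≠ 0 := by
    intro d hd h
    have h2 := congrFun h (e ⟨d, hd⟩)
    change c (e.symm (e ⟨d, hd⟩)) d = 0 at h2
    rw [Equiv.symm_apply_apply] at h2
    exact hc ⟨d, hd⟩ h2
  have hinj : Set.InjOn φ (A : Set G) := by
    intro a ha b hb hab
    by_contra hne
    apply hφ (a - b)
    · rw [hD, Finset.mem_erase, Finset.mem_union, Finset.mem_image]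
      exact ⟨sub_ne_zero.2 hne, Or.inr ⟨(a, b), Finset.mem_product.2 ⟨ha, hb⟩, rfl⟩⟩
    · rw [map_sub, hab, sub_self]
  obtain ⟨A₁, hA₁⟩ : ∃ A₁ : Finset (Fin D.card → AddCircle (1 : ℚ)), A₁ = A.image φ := ⟨_, rfl⟩
  have hcard : A₁.card = A.card := by
    rw [hA₁]
    exact Finset.card_image_of_injOn hinj
  -- subsets of the image
  have hsub : ∀ B ⊆ A₁, ∃ C ⊆ A, B = C.image φ ∧ ∑ b ∈ B, b = φ (∑ a ∈ C, a) := by
    intro B hB
    rw [hA₁, Finset.subset_image_iff] at hB
    obtain ⟨C, hC, rfl⟩ := hB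
    refine ⟨C, by exact_mod_cast hC, rfl, ?_⟩
    rw [Finset.sum_image (fun x hx y hy h => hinj (hC hx) (hC hy) h), map_sum]
  have hZ1 : ZSF A₁ := by
    intro B hB hne h0
    obtain ⟨C, hC, rfl, hs⟩ := hsub B hB
    rw [hs] at h0
    have hCne : C.Nonempty := Finset.image_nonempty.1 hne
    refine hφ _ ?_ h0
    rw [hD, Finset.mem_erase, Finset.mem_union]
    exact ⟨hZ C hC hCne, Or.inl (Finset.mem_subsetSum_iff.2 ⟨C, hC, rfl⟩)⟩
  obtain ⟨K, hK⟩ : ∃ K : AddSubgroup (Fin D.card → AddCircle (1 : ℚ)),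
    K = AddSubgroup.closure (A₁ : Set (Fin D.card → AddCircle (1 : ℚ))) := ⟨_, rfl⟩
  have hfg : AddGroup.FG K := by
    rw [hK]
    exact (AddGroup.fg_iff_addSubgroup_fg _).2 ⟨A₁, rfl⟩
  have hfin : Finite K := by
    apply AddCommGroup.finite_of_fg_isAddTorsion
    intro x
    obtain ⟨m, hm0, hm⟩ := torsion_pi (x : Fin D.card → AddCircle (1 : ℚ))
    rw [isOfFinAddOrder_iff_nsmul_eq_zero]
    exact ⟨m, hm0, Subtype.ext hm⟩
  have hcK : (toSub K A₁).card = A.card := by
    rw [card_toSub, hK, inSub_closure, hcard]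
  refine ⟨K, inferInstance, hfin, inferInstance, toSub K A₁, ZSF_toSub _ _ hZ1, hcK, ?_⟩
  have h3 : (toSub K A₁).subsetSum.card ≤ A₁.subsetSum.card := by
    apply Finset.card_le_card_of_injOn (fun x : K => (x : Fin D.card → AddCircle (1 : ℚ)))
    · intro x hx
      rw [Finset.mem_coe, Finset.mem_subsetSum_iff] at hx
      obtain ⟨B, hB, rfl⟩ := hx
      rw [Finset.mem_coe, Finset.mem_subsetSum_iff]
      refine ⟨B.map (Function.Embedding.subtype _), ?_, (sum_coe_sub _ B).symm⟩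
      intro y hy
      rw [Finset.mem_map] at hy
      obtain ⟨z, hz, rfl⟩ := hy
      exact (mem_toSub _ _ _).1 (hB hz)
    · intro x _ y _ hxy
      exact Subtype.ext hxy
  have h4 : A₁.subsetSum ⊆ A.subsetSum.image φ := by
    intro s hs
    rw [Finset.mem_subsetSum_iff] at hs
    obtain ⟨B, hB, rfl⟩ := hs
    obtain ⟨C, hC, -, hs⟩ := hsub B hB
    rw [hs]
    exact Finset.mem_image_of_mem _ (Finset.mem_subsetSum_iff.2 ⟨C, hC, rfl⟩)
  exact h3.trans ((Finset.card_le_card h4).trans Finset.card_image_le)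


/-- Exact lower bound in all abelian groups, threshold `10 ^ 145`. -/
theorem exact_ncard' (G : Type u) [AddCommGroup G] (A : Finset G) (T : Set G)
    (hT : ∀ s, s ∈ T ↔ ∃ B : Finset G, B ⊆ A ∧ B.Nonempty ∧ ∑ b ∈ B, b = s) (h0 : (0 : G) ∉ T)
    (hA : 10 ^ 145 ≤ A.card) : A.card ^ 2 / 2 + 1 ≤ T.ncard := by
  classical
  have hZ : ZSF A := fun B hB hne hs => h0 ((hT 0).2 ⟨B, hB, hne, hs⟩)
  obtain ⟨H, _, _, _, A', hZ', hc, hle⟩ := transfer G A hZ
  have h1 := main_exact' H A' hZ' (by rw [hc]; exact hA)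
  have h2 := (ncard_all A T hT h0).2
  rw [hc] at h1
  omega

/-- `bet η ≤ 6400000000 / η ^ 3` for `η ≤ 1 / 4`. -/
theorem bet_le (η : ℝ) (h0 : 0 < η) (h1 : η ≤ 1 / 4) : bet η ≤ 6400000000 / η ^ 3 := by
  unfold bet thr
  have e : 4 / η + (2880 / η ^ 2 + 1152 * (4 / η) + 288 * (4 / η) / (η / 2304) ^ 2 +
      2 / (η / 2304)) = (9220 * η ^ 2 + 2880 * η + 6115295232) / η ^ 3 := by
    field_simp
    ring
  rw [e]
  apply div_le_div_of_nonneg_right _ (by positivity)
  nlinarith

/-- Explicit lower bound for every cardinality, finite groups. -/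
theorem explicit_fin (G : Type) [AddCommGroup G] [Finite G] [DecidableEq G] (S : Finset G)
    (hZ : ZSF S) : (S.card : ℝ) ^ 2 / 2 - 3200 * (S.card : ℝ) ^ (7 / 4 : ℝ) + 1 ≤
      S.subsetSum.card := by
  obtain ⟨m, hm⟩ : ∃ m : ℝ, m = S.card := ⟨_, rfl⟩
  rw [← hm]
  have hm0 : 0 ≤ m := by rw [hm]; positivity
  have h1 : (1 : ℝ) ≤ S.subsetSum.card := by
    have : 0 < S.subsetSum.card := Finset.card_pos.2 Finset.subsetSum_nonempty
    exact_mod_cast this
  obtain ⟨t, ht⟩ : ∃ t : ℝ, t = m ^ (1 / 4 : ℝ) := ⟨_, rfl⟩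
  have ht0 : 0 ≤ t := by rw [ht]; positivity
  have ht4 : t ^ 4 = m := by
    rw [ht, ← Real.rpow_natCast, ← Real.rpow_mul hm0]
    norm_num
  have ht7 : m ^ (7 / 4 : ℝ) = t ^ 7 := by
    rw [ht, ← Real.rpow_natCast, ← Real.rpow_mul hm0]
    norm_num
  rw [ht7, ← ht4]
  by_cases hs : t ≤ 6400
  · have h2 : (t ^ 4) ^ 2 / 2 - 3200 * t ^ 7 = t ^ 7 * (t - 6400) / 2 := by ring
    have h3 : t ^ 7 * (t - 6400) ≤ 0 :=
      mul_nonpos_of_nonneg_of_nonpos (by positivity) (by linarith)
    rw [h2]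
    linarith
  · push Not at hs
    have htp : 0 < t := by linarith
    obtain ⟨η, hη⟩ : ∃ η : ℝ, η = 200 / t := ⟨_, rfl⟩
    have hη0 : 0 < η := by rw [hη]; positivity
    have hη1 : η ≤ 1 / 32 := by
      rw [hη, div_le_iff₀ htp]
      linarith
    have hηt : η * t = 200 := by rw [hη]; field_simp
    have hη4 : η ^ 4 * t ^ 4 = 1600000000 := by
      rw [← mul_pow, hηt]; norm_num
    have h := lower_aux (1 / 2 - 8 * η) η (by linarith) hη0 (by ring) S hZ
      (by
        rw [← hm, ← ht4, div_le_iff₀ (by positivity)]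
        refine (bet_le η hη0 (by linarith)).trans ?_
        rw [div_le_iff₀ (by positivity)]
        have : t ^ 4 * (4 * η) * η ^ 3 = 4 * (η ^ 4 * t ^ 4) := by ring
        rw [this, hη4]
        norm_num)
      (by
        rw [← hm, ← ht4, div_le_iff₀ (by positivity)]
        have h5 : 1600000000 = t ^ 4 * η ^ 3 * η := by rw [← hη4]; ring
        have h6 : t ^ 4 * η ^ 3 * η ≤ t ^ 4 * η ^ 3 * (1 / 32) :=
          mul_le_mul_of_nonneg_left hη1 (by positivity)
        linarith)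
    rw [← hm, ← ht4] at h
    have h2 : (1 / 2 - 8 * η) * (t ^ 4) ^ 2 = (t ^ 4) ^ 2 / 2 - 1600 * t ^ 7 := by
      have : 8 * η * (t ^ 4) ^ 2 = 8 * (η * t) * t ^ 7 := by ring
      rw [sub_mul, this, hηt]
      ring
    rw [h2] at h
    have h3 : 0 ≤ t ^ 7 := by positivity
    linarith

/-- Explicit lower bound for every cardinality, all abelian groups. -/
theorem explicit_ncard (G : Type u) [AddCommGroup G] (A : Finset G) (T : Set G)
    (hT : ∀ s, s ∈ T ↔ ∃ B : Finset G, B ⊆ A ∧ B.Nonempty ∧ ∑ b ∈ B, b = s) (h0 : (0 : G) ∉ T) :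
    (A.card : ℝ) ^ 2 / 2 - 3200 * (A.card : ℝ) ^ (7 / 4 : ℝ) ≤ T.ncard := by
  classical
  have hZ : ZSF A := fun B hB hne hs => h0 ((hT 0).2 ⟨B, hB, hne, hs⟩)
  obtain ⟨H, _, _, _, A', hZ', hc, hle⟩ := transfer G A hZ
  have h1 := explicit_fin H A' hZ'
  have h2 := (ncard_all A T hT h0).2
  rw [hc] at h1
  have h3 : (A'.subsetSum.card : ℝ) ≤ A.subsetSum.card := by exact_mod_cast hle
  have h4 : (T.ncard : ℝ) + 1 = A.subsetSum.card := by exact_mod_cast h2
  linarith

end Pool.Agent.H96.ZF
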