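import Mathlib
import Pool.Agent.H96.ZF.Odd

set_option autoImplicit false
set_option linter.unusedSectionVars false

/-!
# Abelian groups without elements of order two

A zero-sum-free set in such a group has a zero-sum-free copy in a finite abelian group of odd order
with the same cardinality and not more subset sums.
-/

open Finset
open scoped Pointwise

universe u

namespace Pool.Agent.H96.ZF

open Pool.Agent.Helper398 Pool.Agent.Y99.ZS

theorem eq_zero_of_coprime {H : Type*} [AddCommGroup H] (z : H) (a b : ℕ) (hab : Nat.Coprime a b)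
    (ha : a • z = 0) (hb : b • z = 0) : z = 0 := by
  have h1 : addOrderOf z ∣ Nat.gcd a b :=
    Nat.dvd_gcd (addOrderOf_dvd_of_nsmul_eq_zero ha) (addOrderOf_dvd_of_nsmul_eq_zero hb)
  rw [hab] at h1
  exact AddMonoid.addOrderOf_eq_one_iff.1 (Nat.dvd_one.1 h1)

theorem exists_char (G : Type u) [AddCommGroup G] (h2 : ∀ x : G, x + x = 0 → x = 0) (d : G)
    (hd : d ≠ 0) : ∃ c : G →+ AddCircle (1 : ℚ), ∀ n : ℕ, (2 ^ n) • c d ≠ 0 := by
  rcases Nat.eq_zero_or_pos (addOrderOf d) with h | h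
  · -- infinite order
    obtain ⟨Z, hZ⟩ : ∃ Z : AddSubgroup G, Z = AddSubgroup.zmultiples (3 • d) := ⟨_, rfl⟩
    have hdZ : (QuotientAddGroup.mk' Z d) ≠ 0 := by
      intro h0
      rw [QuotientAddGroup.mk'_apply, QuotientAddGroup.eq_zero_iff, hZ,
        AddSubgroup.mem_zmultiples_iff] at h0
      obtain ⟨k, hk⟩ := h0
      have h3 : (3 * k - 1) • d = 0 := by
        have h5 : (3 * k) • d = k • ((3 : ℕ) • d) := by
          rw [mul_comm, mul_smul]
          congr 1
          norm_cast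
        rw [sub_smul, one_smul, h5, hk, sub_self]
      have h4 : (addOrderOf d : ℤ) ∣ 3 * k - 1 := addOrderOf_dvd_iff_zsmul_eq_zero.2 h3
      rw [h, Nat.cast_zero, zero_dvd_iff] at h4
      omega
    obtain ⟨c, hc⟩ := CharacterModule.exists_character_apply_ne_zero_of_ne_zero hdZ
    refine ⟨(c : (G ⧸ Z) →+ AddCircle (1 : ℚ)).comp (QuotientAddGroup.mk' Z), fun n hn => hc ?_⟩
    apply eq_zero_of_coprime _ (2 ^ n) 3 (Nat.Coprime.pow_left n (by norm_num)) hn
    have h5 : (3 : ℕ) • (QuotientAddGroup.mk' Z d) = 0 := by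
      rw [← map_nsmul, QuotientAddGroup.mk'_apply, QuotientAddGroup.eq_zero_iff, hZ]
      exact AddSubgroup.mem_zmultiples _
    have h6 := congrArg c h5
    rw [map_nsmul, map_zero] at h6
    exact h6
  · obtain ⟨c, hc⟩ := CharacterModule.exists_character_apply_ne_zero_of_ne_zero hd
    have hodd : Odd (addOrderOf d) := by
      rw [← Nat.not_even_iff_odd]
      rintro ⟨j, hj⟩
      have h3 : j • d + j • d = 0 := by
        rw [← add_smul, ← hj, addOrderOf_nsmul_eq_zero]
      have h4 := addOrderOf_dvd_of_nsmul_eq_zero (h2 _ h3)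
      have h5 := Nat.le_of_dvd (by omega) h4
      omega
    refine ⟨c, fun n hn => hc ?_⟩
    apply eq_zero_of_coprime _ (2 ^ n) (addOrderOf d)
      (Nat.Coprime.pow_left n (Nat.coprime_two_left.2 hodd)) hn
    have h6 := congrArg c (addOrderOf_nsmul_eq_zero d)
    rw [map_nsmul, map_zero] at h6
    exact h6

theorem odd_card_of_smul {K : Type*} [AddCommGroup K] [Finite K] (m : ℕ) (hm : Odd m)
    (h : ∀ x : K, m • x = 0) : Odd (Nat.card K) := by
  rw [← Nat.not_even_iff_odd]
  intro he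
  have : Fact (Nat.Prime 2) := ⟨Nat.prime_two⟩
  obtain ⟨x, hx⟩ := exists_prime_addOrderOf_dvd_card' 2 he.two_dvd
  have h1 := addOrderOf_dvd_of_nsmul_eq_zero (h x)
  rw [hx] at h1
  exact (Nat.not_even_iff_odd.2 hm) (even_iff_two_dvd.2 h1)

/-- Every zero-sum-free set in an abelian group without elements of order two has a zero-sum-free
copy in a finite abelian group of odd order with the same cardinality and not more subset sums. -/
theorem transfer_odd (G : Type u) [AddCommGroup G] [DecidableEq G]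
    (h2 : ∀ x : G, x + x = 0 → x = 0) (A : Finset G) (hZ : ZSF A) :
    ∃ (H : Type) (_ : AddCommGroup H) (_ : Finite H) (_ : DecidableEq H) (A' : Finset H),
      Odd (Nat.card H) ∧ ZSF A' ∧ A'.card = A.card ∧ A'.subsetSum.card ≤ A.subsetSum.card := by
  classical
  -- the finite set of the elements to be detected
  obtain ⟨D, hD⟩ : ∃ D : Finset G,
    D = (A.subsetSum ∪ (A ×ˢ A).image (fun p => p.1 - p.2)).erase 0 := ⟨_, rfl⟩
  have h1 : ∀ d : D, ∃ c : G →+ AddCircle (1 : ℚ), ∀ n : ℕ, (2 ^ n) • c d.1 ≠ 0 := by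
    intro d
    have hd : (d : G) ∈ (A.subsetSum ∪ (A ×ˢ A).image (fun p => p.1 - p.2)).erase 0 := by
      rw [← hD]; exact d.2
    exact exists_char G h2 d (Finset.ne_of_mem_erase hd)
  choose c hc using h1
  let e := D.equivFin
  let φ₀ : G →+ (Fin D.card → AddCircle (1 : ℚ)) :=
    { toFun := fun g i => c (e.symm i) g
      map_zero' := by
        funext i
        exact map_zero (c (e.symm i))
      map_add' := fun a b => by
        funext i
        exact map_add (c (e.symm i)) a b }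
  -- the order of the image and its odd part
  obtain ⟨K₀, hK₀⟩ : ∃ K₀ : AddSubgroup (Fin D.card → AddCircle (1 : ℚ)),
    K₀ = AddSubgroup.closure ((A.image φ₀ : Finset _) : Set (Fin D.card → AddCircle (1 : ℚ))) :=
    ⟨_, rfl⟩
  have hfin₀ : Finite K₀ := by
    have hfg : AddGroup.FG K₀ := by
      rw [hK₀]
      exact (AddGroup.fg_iff_addSubgroup_fg _).2 ⟨A.image φ₀, rfl⟩
    apply AddCommGroup.finite_of_fg_isAddTorsion
    intro x
    obtain ⟨m₁, hm0, hm⟩ := torsion_pi (x : Fin D.card → AddCircle (1 : ℚ))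
    rw [isOfFinAddOrder_iff_nsmul_eq_zero]
    exact ⟨m₁, hm0, Subtype.ext hm⟩
  obtain ⟨a, m, hmodd, ham⟩ := Nat.exists_eq_two_pow_mul_odd (n := Nat.card K₀) Nat.card_pos.ne'
  have hkill : ∀ x ∈ A, m • ((2 ^ a) • φ₀ x) = 0 := by
    intro x hx
    have h3 : φ₀ x ∈ K₀ := by
      rw [hK₀]
      exact AddSubgroup.subset_closure (by
        rw [Finset.mem_coe]
        exact Finset.mem_image_of_mem _ hx)
    have h4 : Nat.card K₀ • (⟨φ₀ x, h3⟩ : K₀) = 0 := card_nsmul_eq_zero'
    have h5 := congrArg Subtype.val h4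
    rw [smul_smul, mul_comm, ← ham]
    exact h5
  let φ : G →+ (Fin D.card → AddCircle (1 : ℚ)) :=
    { toFun := fun g => (2 ^ a) • φ₀ g
      map_zero' := by rw [map_zero, smul_zero]
      map_add' := fun x y => by rw [map_add, smul_add] }
  have hφ : ∀ d ∈ D, φ d ≠ 0 := by
    intro d hd h
    have h3 := congrFun h (e ⟨d, hd⟩)
    change (2 ^ a) • c (e.symm (e ⟨d, hd⟩)) d = 0 at h3
    rw [Equiv.symm_apply_apply] at h3
    exact hc ⟨d, hd⟩ a h3
  have hinj : Set.InjOn φ (A : Set G) := by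
    intro a ha b hb hab
    by_contra hne
    apply hφ (a - b)
    · rw [hD, Finset.mem_erase, Finset.mem_union, Finset.mem_image]
      exact ⟨sub_ne_zero.2 hne, Or.inr ⟨(a, b), Finset.mem_product.2 ⟨ha, hb⟩, rfl⟩⟩
    · rw [map_sub, hab, sub_self]
  obtain ⟨A₁, hA₁⟩ : ∃ A₁ : Finset (Fin D.card → AddCircle (1 : ℚ)), A₁ = A.image φ := ⟨_, rfl⟩
  have hcard : A₁.card = A.card := by
    rw [hA₁]
    exact Finset.card_image_of_injOn hinj
  -- subsets of the image
  have hsub : ∀ B ⊆ A₁, ∃ C ⊆ A, B = C.image φ ∧ ∑ b ∈ B, b = φ (∑ a ∈ C, a) := by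
    intro B hB
    rw [hA₁, Finset.subset_image_iff] at hB
    obtain ⟨C, hC, rfl⟩ := hB
    refine ⟨C, by exact_mod_cast hC, rfl, ?_⟩
    rw [Finset.sum_image (fun x hx y hy h => hinj (hC hx) (hC hy) h), map_sum]
  have hZ1 : ZSF A₁ := by
    intro B hB hne h0
    obtain ⟨C, hC, rfl, hs⟩ := hsub B hB
    rw [hs] at h0
    have hCne : C.Nonempty := Finset.image_nonempty.1 hne
    refine hφ _ ?_ h0
    rw [hD, Finset.mem_erase, Finset.mem_union]
    exact ⟨hZ C hC hCne, Or.inl (Finset.mem_subsetSum_iff.2 ⟨C, hC, rfl⟩)⟩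
  obtain ⟨K, hK⟩ : ∃ K : AddSubgroup (Fin D.card → AddCircle (1 : ℚ)),
    K = AddSubgroup.closure (A₁ : Set (Fin D.card → AddCircle (1 : ℚ))) := ⟨_, rfl⟩
  have hfg : AddGroup.FG K := by
    rw [hK]
    exact (AddGroup.fg_iff_addSubgroup_fg _).2 ⟨A₁, rfl⟩
  have hfin : Finite K := by
    apply AddCommGroup.finite_of_fg_isAddTorsion
    intro x
    obtain ⟨m₁, hm0, hm⟩ := torsion_pi (x : Fin D.card → AddCircle (1 : ℚ))
    rw [isOfFinAddOrder_iff_nsmul_eq_zero]
    exact ⟨m₁, hm0, Subtype.ext hm⟩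
  have hcK : (toSub K A₁).card = A.card := by
    rw [card_toSub, hK, inSub_closure, hcard]
  have hodd : Odd (Nat.card K) := by
    apply odd_card_of_smul m hmodd
    rintro ⟨x, hx⟩
    apply Subtype.ext
    change m • x = 0
    rw [hK] at hx
    induction hx using AddSubgroup.closure_induction with
    | mem y hy =>
      rw [hA₁, Finset.mem_coe, Finset.mem_image] at hy
      obtain ⟨g, hg, rfl⟩ := hy
      exact hkill g hg
    | zero => exact smul_zero _
    | add y z _ _ hy hz => rw [smul_add, hy, hz, add_zero]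
    | neg y _ hy => rw [smul_neg, hy, neg_zero]
  refine ⟨K, inferInstance, hfin, inferInstance, toSub K A₁, hodd, ZSF_toSub _ _ hZ1, hcK, ?_⟩
  have h3 : (toSub K A₁).subsetSum.card ≤ A₁.subsetSum.card := by
    apply Finset.card_le_card_of_injOn (fun x : K => (x : Fin D.card → AddCircle (1 : ℚ)))
    · intro x hx
      rw [Finset.mem_coe, Finset.mem_subsetSum_iff] at hx
      obtain ⟨B, hB, rfl⟩ := hx
      rw [Finset.mem_coe, Finset.mem_subsetSum_iff]
      refine ⟨B.map (Function.Embedding.subtype _), ?_, (sum_coe_sub _ B).symm⟩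
      intro y hy
      rw [Finset.mem_map] at hy
      obtain ⟨z, hz, rfl⟩ := hy
      exact (mem_toSub _ _ _).1 (hB hz)
    · intro x _ y _ hxy
      exact Subtype.ext hxy
  have h4 : A₁.subsetSum ⊆ A.subsetSum.image φ := by
    intro s hs
    rw [Finset.mem_subsetSum_iff] at hs
    obtain ⟨B, hB, rfl⟩ := hs
    obtain ⟨C, hC, -, hs⟩ := hsub B hB
    rw [hs]
    exact Finset.mem_image_of_mem _ (Finset.mem_subsetSum_iff.2 ⟨C, hC, rfl⟩)
  exact h3.trans ((Finset.card_le_card h4).trans Finset.card_image_le)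

/-- The lower bound in all abelian groups without elements of order two, threshold `10 ^ 145`. -/
theorem noTwo_ncard (G : Type u) [AddCommGroup G] (h2 : ∀ x : G, x + x = 0 → x = 0)
    (A : Finset G) (T : Set G)
    (hT : ∀ s, s ∈ T ↔ ∃ B : Finset G, B ⊆ A ∧ B.Nonempty ∧ ∑ b ∈ B, b = s) (h0 : (0 : G) ∉ T)
    (hA : 10 ^ 145 ≤ A.card) :
    (A.card : ℝ) ^ 2 / 2 + 99 / 200 * A.card + 1 ≤ T.ncard := by
  classical
  have hZ : ZSF A := fun B hB hne hs => h0 ((hT 0).2 ⟨B, hB, hne, hs⟩)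
  obtain ⟨H, _, _, _, A', hodd, hZ', hc, hle⟩ := transfer_odd G h2 A hZ
  have h1 := main_exact_odd H hodd A' hZ' (by rw [hc]; exact hA)
  have h3 := (ncard_all A T hT h0).2
  rw [hc] at h1
  have h4 : 100 * A.card ^ 2 + 99 * A.card + 400 ≤ 200 * (T.ncard + 1) := by
    rw [h3]
    exact h1.trans (Nat.mul_le_mul_left 200 hle)
  have h5 : (100 : ℝ) * (A.card : ℝ) ^ 2 + 99 * A.card + 400 ≤ 200 * ((T.ncard : ℝ) + 1) := by
    exact_mod_cast h4
  linarith

end Pool.Agent.H96.ZF
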