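import Mathlib
import Pool.Agent.H96.ZF.NoTwo

set_option autoImplicit false
set_option linter.unusedSectionVars false

/-!
# Groups of odd order, with a parameter `T`: error term `k ^ (13 / 14)`
-/

open Finset
open scoped Pointwise

universe u

namespace Pool.Agent.H96.ZF

open Pool.Agent.Helper398 Pool.Agent.Y99.ZS

theorem numN_T (m q t T : ℕ) (va α : ℤ) (hT : 1 ≤ T) (hm : 10 ^ 24 * T ≤ m) (hq : 1 ≤ q)
    (hva : va ≤ α) (hqm : 1000000 * q ≤ 1000001 * m)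
    (hsmall : q < 6 * 10 ^ 10 → 1000 * (T : ℤ) * ((q : ℤ) * α) ≤ m)
    (hlarge : 6 * 10 ^ 10 ≤ q → 700 * α ≤ m ∧ 8 * t ≤ q) (ht : 2 * t + 1 ≤ q) :
    200 * (T : ℤ) * ((q : ℤ) * (va + 2 * α)) + (100 * T - 1) * m + 400 * T ≤
      100 * T * (m * ((q : ℤ) - 2 * t) - t * ((q : ℤ) - t)) := by
  have hq0 : (0 : ℤ) < q := by omega
  have hT0 : (0 : ℤ) ≤ T := by omega
  have hmT : (10 ^ 24 : ℤ) * T ≤ m := by exact_mod_cast hm
  have h1 : (q : ℤ) * (va + 2 * α) ≤ 3 * (q * α) := by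
    have : (q : ℤ) * va ≤ q * α := mul_le_mul_of_nonneg_left hva hq0.le
    linarith
  rcases Nat.lt_or_ge q (6 * 10 ^ 10) with h | h
  · have h2 := hsmall h
    have h3 : (m : ℤ) * 1 ≤ m * ((q : ℤ) - 2 * t) := mul_le_mul_of_nonneg_left (by omega) (by omega)
    have h4 : (t : ℤ) * ((q : ℤ) - t) ≤ (6 * 10 ^ 10) * (6 * 10 ^ 10) := by
      apply mul_le_mul <;> omega
    have e1 := mul_le_mul_of_nonneg_left h1 hT0
    have e3 := mul_le_mul_of_nonneg_left h3 hT0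
    have e4 := mul_le_mul_of_nonneg_left h4 hT0
    norm_num at e4
    linarith
  · obtain ⟨h2, h3⟩ := hlarge h
    have hm1 : (10 ^ 24 : ℤ) ≤ m := by
      have : (10 ^ 24 : ℤ) * 1 ≤ 10 ^ 24 * T := mul_le_mul_of_nonneg_left (by omega) (by norm_num)
      linarith
    have hq' : (6 * 10 ^ 10 : ℤ) ≤ q := by exact_mod_cast h
    have h4 : (q : ℤ) * (700 * α) ≤ q * m := mul_le_mul_of_nonneg_left h2 hq0.le
    have h5 : (m : ℤ) * (6 * q) ≤ m * (8 * ((q : ℤ) - 2 * t)) :=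
      mul_le_mul_of_nonneg_left (by omega) (by omega)
    have h6 : 8 * ((t : ℤ) * ((q : ℤ) - t)) ≤ q * q := by
      have : 8 * (t : ℤ) * ((q : ℤ) - t) ≤ q * q := by
        apply mul_le_mul <;> omega
      linarith
    have h7 : (q : ℤ) * (1000000 * q) ≤ q * (1000001 * m) :=
      mul_le_mul_of_nonneg_left (by exact_mod_cast hqm) hq0.le
    have h8 : (10 ^ 24 : ℤ) * 1 ≤ m * q := by
      apply mul_le_mul _ (by omega) (by norm_num) (by omega)
      exact hm1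
    have h9 : (6 * 10 ^ 10 : ℤ) * m ≤ q * m := mul_le_mul_of_nonneg_right hq' (by omega)
    have h10 : 200 * ((q : ℤ) * (va + 2 * α)) + 100 * m + 400 ≤
        100 * (m * ((q : ℤ) - 2 * t) - t * ((q : ℤ) - t)) := by nlinarith
    have e1 := mul_le_mul_of_nonneg_left h10 hT0
    have h11 : (0 : ℤ) ≤ m := by omega
    linarith

theorem num3_T (m q D k T : ℕ) (hm : 10 ^ 24 * T ≤ m) (hq : 1 ≤ q)
    (hk2 : 2 ^ k ≤ 2 * q ^ 2) (hD : 500000 * (T * D) ≤ m) (hq0 : q < 6 * 10 ^ 10) :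
    1000 * T * (q * (k * (2 * (D + 2 * k) / q + 1) + (2 * ((D + 2 * k) / q) + 3))) ≤ m := by
  obtain ⟨E, hE⟩ : ∃ E, E = D + 2 * k := ⟨_, rfl⟩
  rw [← hE]
  obtain ⟨h1, h2, h3, h4⟩ := div_facts q E hq
  obtain ⟨μ, hμ⟩ : ∃ μ, μ = E / q := ⟨_, rfl⟩
  obtain ⟨J, hJ⟩ : ∃ J, J = 2 * E / q + 1 := ⟨_, rfl⟩
  rw [← hμ] at h1 ⊢
  rw [← hJ] at h3 ⊢
  have hk := k_small q k hk2 hq0
  have h5 : k * (J * q) ≤ 73 * (2 * E + q) := Nat.mul_le_mul hk h3
  have e : q * (k * J + (2 * μ + 3)) = k * (J * q) + 2 * (q * μ) + 3 * q := by ring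
  have h6 : q * (k * J + (2 * μ + 3)) ≤ 148 * D + 5 * 10 ^ 12 := by
    rw [e]
    omega
  calc 1000 * T * (q * (k * J + (2 * μ + 3))) ≤ 1000 * T * (148 * D + 5 * 10 ^ 12) :=
        Nat.mul_le_mul_left _ h6
    _ = 148000 * (T * D) + 5 * 10 ^ 15 * T := by ring
    _ ≤ m := by omega

theorem finish_T {G : Type*} [AddCommGroup G] [Finite G] [DecidableEq G] {W : ℕ} (hW : 0 < W) (w : G →+ ZMod W) (hsurj : Function.Surjective w)
    (v : G → ℤ) (hv : ∀ x, (v x : ZMod W) = w x) (hvW : ∀ x, 2 * |v x| ≤ W)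
    (A S : Finset G) (hZ : ZSF A) (m q : ℕ) (hm : A.card = m) (hq : q = Nat.card w.ker)
    (hodd : Odd q) (T : ℕ)
    (hSA : S ⊆ A) (a : G) (ha : a ∈ A) (haS : a ∉ S) (hva : v a ≠ 0) (α : ℤ) (hα : 1 ≤ α)
    (hIv : Iv w v S α) (l : ℕ) (hl : (l : ℤ) ≤ sp v S + sn v S - 2 * α + 1)
    (hbig : A.subsetSum.card < 2 * l * q)
    (hN : ∀ t : ℕ, t = (A.filter (fun x => v x = 0)).card → 2 * t + 1 ≤ q →
      200 * (T : ℤ) * ((q : ℤ) * (|v a| + 2 * α)) + (100 * T - 1) * m + 400 * T ≤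
        100 * T * (m * ((q : ℤ) - 2 * t) - t * ((q : ℤ) - t))) :
    100 * (T : ℤ) * m ^ 2 + (100 * T - 1) * m + 400 * T ≤ 200 * T * A.subsetSum.card := by
  have hqpos : 0 < q := by rw [hq]; exact Nat.card_pos
  obtain ⟨A0, hA0⟩ : ∃ A0, A0 = A.filter (fun x => v x = 0) := ⟨_, rfl⟩
  obtain ⟨A1, hA1⟩ : ∃ A1, A1 = A.filter (fun x => v x ≠ 0) := ⟨_, rfl⟩
  have hA1A : A1 ⊆ A := by rw [hA1]; exact Finset.filter_subset _ _
  have hA0A : A0 ⊆ A := by rw [hA0]; exact Finset.filter_subset _ _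
  have hcardA : A0.card + A1.card = m := by
    rw [hA0, hA1, ← hm]
    exact Finset.card_filter_add_card_filter_not _
  have hdisj01 : Disjoint A0 A1 := by
    rw [Finset.disjoint_left]
    intro x hx hx1
    rw [hA0, Finset.mem_filter] at hx
    rw [hA1, Finset.mem_filter] at hx1
    exact hx1.2 hx.2
  have hA0ker : ∀ x ∈ A0, x ∈ w.ker := by
    intro x hx
    rw [hA0, Finset.mem_filter] at hx
    rw [AddMonoidHom.mem_ker, ← hv, hx.2, Int.cast_zero]
  have haA1 : a ∈ A1 := by rw [hA1, Finset.mem_filter]; exact ⟨ha, hva⟩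
  -- the interval property of `A \ a`
  have hIv' : Iv w v (A.erase a) α := by
    have h1 := Iv_all w hsurj v A S α hIv hv hvW l hl (by rw [← hq]; exact hbig)
      (A.erase a \ S) Finset.disjoint_sdiff
    have h2 : S ∪ (A.erase a \ S) = A.erase a := by
      apply Finset.union_sdiff_of_subset
      intro x hx
      rw [Finset.mem_erase]
      exact ⟨fun h => haS (h ▸ hx), hSA hx⟩
    rw [h2] at h1
    exact h1 (Finset.erase_subset _ _)
  have hH3 : ∀ y : ℤ, -sn v (A.erase a) + α ≤ y → y + α ≤ sp v (A.erase a) →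
      ¬ (W : ℤ) ∣ (y + v a) := by
    intro y h1 h2 h3
    have h4 := hIv' (-a) y h1 h2 (by
      rw [map_neg, ← hv, eq_neg_iff_add_eq_zero]
      have : ((y + v a : ℤ) : ZMod W) = 0 := (ZMod.intCast_zmod_eq_zero_iff_dvd _ _).2 h3
      rw [← this]
      push_cast
      ring)
    refine neg_notMem_of_ZSF (A.erase a) a (Finset.notMem_erase _ _) ?_ h4
    rw [Finset.insert_erase ha]
    exact hZ
  have hlen := len_lt W hW _ _ α (v a) hH3
  -- restriction to nonzero weights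
  have hsnA1 : sn v (A1.erase a) = sn v (A.erase a) := by
    unfold sn
    apply Finset.sum_subset (Finset.erase_subset_erase _ hA1A)
    intro x hx hx1
    rw [Finset.mem_erase] at hx hx1
    have : v x = 0 := by
      by_contra hc
      exact hx1 ⟨hx.1, by rw [hA1, Finset.mem_filter]; exact ⟨hx.2, hc⟩⟩
    rw [this]; rfl
  have hspA1 : sp v (A1.erase a) = sp v (A.erase a) := by
    unfold sp
    apply Finset.sum_subset (Finset.erase_subset_erase _ hA1A)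
    intro x hx hx1
    rw [Finset.mem_erase] at hx hx1
    have : v x = 0 := by
      by_contra hc
      exact hx1 ⟨hx.1, by rw [hA1, Finset.mem_filter]; exact ⟨hx.2, hc⟩⟩
    rw [this]; rfl
  have hwA : sp v (A.erase a) + sn v (A.erase a) + |v a| = sp v A1 + sn v A1 := by
    rw [← hsnA1, ← hspA1, sp_add_sn, sp_add_sn, Finset.sum_erase_add _ _ haA1]
  -- counting
  have hcnt : (sp v A1 + sn v A1 - |v a| - 2 * α + 1) * q ≤ A.subsetSum.card := by
    by_cases hneg : sp v A1 + sn v A1 - |v a| - 2 * α + 1 ≤ 0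
    · have : (sp v A1 + sn v A1 - |v a| - 2 * α + 1) * q ≤ 0 :=
        mul_nonpos_of_nonpos_of_nonneg hneg (by positivity)
      have h0 : (0 : ℤ) ≤ A.subsetSum.card := by positivity
      omega
    push Not at hneg
    have h1 := count_fibers w hsurj
      (Finset.Icc (-sn v (A.erase a) + α) (sp v (A.erase a) - α)) A.subsetSum (by
        intro z hz x hx
        rw [Finset.mem_Icc] at hz
        exact Finset.subsetSum_mono (Finset.erase_subset _ _) (hIv' x z hz.1 (by omega) hx)) (by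
        intro z hz z' hz' _
        rw [Finset.mem_Icc] at hz hz'
        omega)
    rw [Int.card_Icc, ← hq] at h1
    have h2 : (((sp v (A.erase a) - α + 1 - (-sn v (A.erase a) + α)).toNat : ℕ) : ℤ) =
        sp v A1 + sn v A1 - |v a| - 2 * α + 1 := by omega
    rw [← h2]
    exact_mod_cast h1
  -- weights
  have hmul : ∀ j : ℕ, (A1.filter (fun i => (v i).natAbs = j)).card ≤ q := by
    intro j
    rcases Nat.eq_zero_or_pos j with hj | hj
    · have : A1.filter (fun i => (v i).natAbs = j) = ∅ := by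
        rw [Finset.filter_eq_empty_iff]
        intro x hx hc
        rw [hA1, Finset.mem_filter] at hx
        rw [hj, Int.natAbs_eq_zero] at hc
        exact hx.2 hc
      rw [this]; simp
    · rw [hq]
      refine le_trans (Finset.card_le_card ?_) (mult_le w v hv A hZ (j : ℤ) (by omega))
      intro x hx
      rw [Finset.mem_filter] at hx ⊢
      refine ⟨hA1A hx.1, ?_⟩
      rw [Int.abs_eq_natAbs, hx.2]
  have hpos1 : ∀ i ∈ A1, 1 ≤ (v i).natAbs := by
    intro i hi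
    rw [hA1, Finset.mem_filter] at hi
    have := Int.natAbs_pos.2 hi.2
    omega
  have hwsum : ((∑ i ∈ A1, (v i).natAbs : ℕ) : ℤ) = sp v A1 + sn v A1 := by
    rw [sp_add_sn]
    push_cast
    apply Finset.sum_congr rfl
    intro s _
    rfl
  obtain ⟨wA, hwAdef⟩ : ∃ wA : ℤ, wA = sp v A1 + sn v A1 := ⟨_, rfl⟩
  rw [← hwAdef] at hwA hcnt hwsum
  have hwge := wsum_ge q hqpos (fun i => (v i).natAbs) A1 hpos1 hmul
  have hwge' : (Wq q A1.card : ℤ) ≤ wA := by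
    rw [← hwsum]; exact_mod_cast hwge
  obtain ⟨t, ht⟩ : ∃ t, t = A0.card := ⟨_, rfl⟩
  obtain ⟨x, hx⟩ : ∃ x, x = A1.card := ⟨_, rfl⟩
  rw [← ht, ← hx] at hcardA
  rw [← hx] at hwge'
  rcases small_zsf w.ker A0 (hZ.mono hA0A) hA0ker with hcase | ⟨hc1, hc2, hc3, hc4⟩
  · -- the noncritical case
    rw [← hq, ← ht] at hcase
    have h1 := hN t (by rw [ht, hA0]) hcase
    have h2 := Wq_ge q hqpos x
    have h3 : (x : ℤ) ^ 2 + q * x ≤ 2 * (q * Wq q x) := by exact_mod_cast h2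
    have h4 : (q : ℤ) * Wq q x ≤ q * wA := mul_le_mul_of_nonneg_left hwge' (by positivity)
    have h5 : (m : ℤ) = t + x := by exact_mod_cast hcardA.symm
    have hT0 : (0 : ℤ) ≤ T := by positivity
    have h7 : (wA - |v a| - 2 * α + 1) * q = q * wA - q * (|v a| + 2 * α) + q := by ring
    rw [h7] at hcnt
    have h8 : (m : ℤ) ^ 2 = (x : ℤ) ^ 2 + q * x - (m * ((q : ℤ) - 2 * t) - t * ((q : ℤ) - t)) := by
      rw [h5]; ring
    have h9 : (0 : ℤ) ≤ q := by positivity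
    have hE : (x : ℤ) ^ 2 + q * x - 2 * (q * (|v a| + 2 * α)) ≤ 2 * A.subsetSum.card := by linarith
    have hE2 := mul_le_mul_of_nonneg_left hE hT0
    have h8T : (T : ℤ) * (m : ℤ) ^ 2 =
        T * ((x : ℤ) ^ 2 + q * x - (m * ((q : ℤ) - 2 * t) - t * ((q : ℤ) - t))) := by rw [h8]
    linarith
  · exfalso
    rw [← hq, ← ht] at hc1
    obtain ⟨j, hj⟩ := hodd
    omega

theorem assemble_T {G : Type*} [AddCommGroup G] [Finite G] [DecidableEq G] {W : ℕ} (hW : 0 < W) (w : G →+ ZMod W) (hsurj : Function.Surjective w)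
    (A R : Finset G) (hZ : ZSF A) (hRA : R ⊆ A) (m q L : ℕ) (hm : A.card = m)
    (hM : 10 ^ 24 ≤ m) (hq : q = Nat.card w.ker) (hodd : Odd q) (hL0 : 0 < L) (hLW : L < W)
    (hR : ∀ t ∈ R, |(w t).valMinAbs| ≤ L) (hqL : 1000000 * (q * L) ≤ 1000001 * m)
    (hR1 : 9999999 * m ≤ 10000000 * (R.filter (fun x => w x ≠ 0)).card)
    (ht : 6 * 10 ^ 10 ≤ q → 8 * (A.filter (fun x => w x = 0)).card ≤ q)
    (hsum : 2 * A.subsetSum.card ≤ m ^ 2 + 2 * m) (T : ℕ) (hT : 1 ≤ T) (hMT : 10 ^ 24 * T ≤ m)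
    (hqLT : 1000000 * (T * (q * L)) ≤ 1000000 * (T * m) + m)
    (hR1T : 10000000 * (T * m) ≤ 10000000 * (T * (R.filter (fun x => w x ≠ 0)).card) + m) :
    100 * (T : ℤ) * m ^ 2 + (100 * T - 1) * m + 400 * T ≤ 200 * T * A.subsetSum.card := by
  have : NeZero W := ⟨by omega⟩
  have hqpos : 0 < q := by rw [hq]; exact Nat.card_pos
  obtain ⟨v, hvdef⟩ : ∃ v : G → ℤ, v = fun x => (w x).valMinAbs := ⟨_, rfl⟩
  have hv : ∀ x, (v x : ZMod W) = w x := by
    intro x; rw [hvdef]; exact ZMod.coe_valMinAbs _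
  have hvW : ∀ x, 2 * |v x| ≤ W := by
    intro x
    have h := ZMod.valMinAbs_mem_Ioc (w x)
    rw [Set.mem_Ioc] at h
    have h1 : v x = (w x).valMinAbs := by rw [hvdef]
    rw [← h1] at h
    rcases le_total 0 (v x) with h2 | h2
    · rw [abs_of_nonneg h2]; omega
    · rw [abs_of_nonpos h2]; omega
  have hv0 : ∀ x, v x = 0 ↔ w x = 0 := by
    intro x; rw [hvdef]; exact ZMod.valMinAbs_eq_zero _
  obtain ⟨R1, hR1def⟩ : ∃ R1, R1 = R.filter (fun x => w x ≠ 0) := ⟨_, rfl⟩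
  rw [← hR1def] at hR1 hR1T
  have hR1A : R1 ⊆ A := by rw [hR1def]; exact (Finset.filter_subset _ _).trans hRA
  have hR1v : ∀ s ∈ R1, v s ≠ 0 ∧ |v s| ≤ L := by
    intro s hs
    rw [hR1def, Finset.mem_filter] at hs
    refine ⟨fun h => hs.2 ((hv0 s).1 h), ?_⟩
    have := hR s hs.1
    rw [hvdef]
    exact this
  have hR1le : R1.card ≤ q * L := by
    have h := card_le_mult w v hv A R1 hZ hR1A 0 L (by
      intro s hs
      have h := hR1v s hs
      exact ⟨by have := abs_pos.2 h.1; simpa using this, h.2⟩)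
    rw [hq]
    simpa using h
  obtain ⟨s, hs⟩ : ∃ s, s = R1.card - 1 := ⟨_, rfl⟩
  obtain ⟨D, hD⟩ : ∃ D, D = q * L - s := ⟨_, rfl⟩
  have hsL : q * L ≤ s + D := by omega
  have hsq : s ≤ q * L := by omega
  have hD5 : 500000 * D ≤ m := by omega
  have hDT : 500000 * (T * D) ≤ m := by
    have e1 : D + R1.card = q * L + 1 := by omega
    have e2 : T * D + T * R1.card = T * (q * L) + T := by rw [← mul_add, e1]; ring
    omega
  have hsm : 999999 * m ≤ 1000000 * s := by omega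
  obtain ⟨k, hk1, hk2⟩ := exists_k q hqpos
  obtain ⟨h2E, h2E1, h2E2, h2E3⟩ := div_facts q (D + 2 * k) hqpos
  have hn1 := num1 m q L D k s hM hqpos hk2 hsL hsq hqL hD5 hsm hL0
  have hn2 := num2 m q L D k s hM hqpos hk2 hsL hsq hqL hD5 hsm hL0
  obtain ⟨J0, hJ0⟩ : ∃ J0, J0 = 2 * (D + 2 * k) / q + 1 := ⟨_, rfl⟩
  have hJ0L : J0 ≤ L := by
    rw [hJ0]
    have : 2 * (D + 2 * k) / q < L := by
      rw [Nat.div_lt_iff_lt_mul hqpos, mul_comm L q]
      exact hn1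
    omega
  rw [← hJ0] at h2E1 h2E2 h2E3
  -- the small element
  have hexa : ∃ a ∈ R1, |v a| ≤ J0 := by
    by_contra hcon
    push Not at hcon
    have h := card_le_mult w v hv A R1 hZ hR1A J0 L (fun s hs => ⟨hcon s hs, (hR1v s hs).2⟩)
    rw [← hq, Nat.mul_sub] at h
    have h3 : q * J0 = J0 * q := mul_comm _ _
    have h4 : q * J0 ≤ q * L := Nat.mul_le_mul_left _ hJ0L
    omega
  obtain ⟨a, haR1, haJ⟩ := hexa
  obtain ⟨S, hS⟩ : ∃ S, S = R1.erase a := ⟨_, rfl⟩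
  have hScard : S.card = s := by rw [hS, Finset.card_erase_of_mem haR1, hs]
  have hSR1 : S ⊆ R1 := by rw [hS]; exact Finset.erase_subset _ _
  have hasym : ∀ x ∈ S, ∀ y ∈ S, x ≠ y → x + y ≠ 0 := by
    intro x hx y hy hne h
    apply hZ {x, y} (by
      intro z hz; simp at hz; rcases hz with rfl | rfl
      · exact hR1A (hSR1 hx)
      · exact hR1A (hSR1 hy)) (by simp)
    rw [Finset.sum_pair hne, h]
  obtain ⟨αn, hαn⟩ : ∃ αn : ℕ, αn = k * J0 + (2 * ((D + 2 * k) / q) + 3) := ⟨_, rfl⟩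
  have hIv := signed_cover w S v L D J0 k hW
    (fun x hx => ⟨(hR1v x (hSR1 hx)).1, (hR1v x (hSR1 hx)).2, hv x⟩) hasym
    (by rw [← hq, hScard]; exact hsL) (by rw [← hq]; exact hk1) (by rw [← hq]; exact h2E1)
    hJ0L hLW (by rw [← hq]; exact hn2)
  rw [← hq, ← hαn] at hIv
  have hα1 : (1 : ℤ) ≤ (αn : ℤ) := by
    rw [hαn]
    push_cast
    have h1 : (0 : ℤ) ≤ k * J0 := by positivity
    have h2 : (0 : ℤ) ≤ ((D : ℤ) + 2 * k) / q := by positivity
    linarith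
  have haα : |v a| ≤ (αn : ℤ) := by
    refine haJ.trans ?_
    have : J0 ≤ αn := by rw [hαn]; omega
    exact_mod_cast this
  have hqm : 1000000 * q ≤ 1000001 * m := by
    have : q * 1 ≤ q * L := Nat.mul_le_mul_left _ hL0
    omega
  have hsmall : q < 6 * 10 ^ 10 → 1000 * ((q : ℤ) * (αn : ℤ)) ≤ m := by
    intro h
    have h1 := num3 m q L D k s hM hqpos hk2 hD5 h
    rw [← hJ0, ← hαn] at h1
    exact_mod_cast h1
  have hsmallT : q < 6 * 10 ^ 10 → 1000 * (T : ℤ) * ((q : ℤ) * (αn : ℤ)) ≤ m := by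
    intro h
    have h1 := num3_T m q D k T hMT hqpos hk2 hDT h
    rw [← hJ0, ← hαn] at h1
    exact_mod_cast h1
  have hlarge : 6 * 10 ^ 10 ≤ q → 700 * (αn : ℤ) ≤ m := by
    intro h
    have h1 := num4 m q L D k hM hqpos hk2 hqm hD5 h
    rw [← hJ0, ← hαn] at h1
    exact_mod_cast h1
  -- the weight of S
  have hSv : ∀ i ∈ S, 1 ≤ (v i).natAbs := by
    intro i hi
    have := Int.natAbs_pos.2 (hR1v i (hSR1 hi)).1
    omega
  have hmul : ∀ j : ℕ, (S.filter (fun i => (v i).natAbs = j)).card ≤ q := by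
    intro j
    rcases Nat.eq_zero_or_pos j with hj | hj
    · have : S.filter (fun i => (v i).natAbs = j) = ∅ := by
        rw [Finset.filter_eq_empty_iff]
        intro x hx hc
        have := hSv x hx
        omega
      rw [this]; simp
    · rw [hq]
      refine le_trans (Finset.card_le_card ?_) (mult_le w v hv A hZ (j : ℤ) (by omega))
      intro x hx
      rw [Finset.mem_filter] at hx ⊢
      refine ⟨hR1A (hSR1 hx.1), ?_⟩
      rw [Int.abs_eq_natAbs, hx.2]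
  have hwS := wsum_ge q hqpos (fun i => (v i).natAbs) S hSv hmul
  have hwsum : ((∑ i ∈ S, (v i).natAbs : ℕ) : ℤ) = sp v S + sn v S := by
    rw [sp_add_sn]
    push_cast
    apply Finset.sum_congr rfl
    intro s _
    rfl
  rw [hScard] at hwS
  have hWq := Wq_ge q hqpos s
  obtain ⟨l, hl⟩ : ∃ l : ℕ, l = (sp v S + sn v S - 2 * (αn : ℤ) + 1).toNat := ⟨_, rfl⟩
  have hwS' : (Wq q s : ℤ) ≤ sp v S + sn v S := by
    rw [← hwsum]; exact_mod_cast hwS
  have hbig : A.subsetSum.card < 2 * l * q := by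
    apply numB_odd m q s l (Wq q s) (αn : ℤ) A.subsetSum.card hM hqpos hα1 hqm hsmall hlarge hsm hWq _
      hsum
    omega
  have hlpos : (l : ℤ) ≤ sp v S + sn v S - 2 * (αn : ℤ) + 1 := by
    have : 0 < l := by
      rcases Nat.eq_zero_or_pos l with h | h
      · rw [h] at hbig; simp at hbig
      · exact h
    omega
  exact finish_T hW w hsurj v hv hvW A S hZ m q hm hq hodd T (hSR1.trans hR1A) a (hR1A haR1)
    (by rw [hS]; exact Finset.notMem_erase _ _) (hR1v a haR1).1 (αn : ℤ) hα1 hIv l hlpos hbig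
    (by
      intro t ht2 ht3
      apply numN_T m q t T (|v a|) (αn : ℤ) hT hMT hqpos haα hqm hsmallT _ ht3
      intro h
      refine ⟨hlarge h, ?_⟩
      have h1 := ht h
      have h2 : A.filter (fun x => w x = 0) = A.filter (fun x => v x = 0) := by
        ext x
        rw [Finset.mem_filter, Finset.mem_filter, hv0]
      rw [h2, ← ht2] at h1
      exact h1)

theorem thr_near (τ d : ℝ) (h : 1 ≤ τ) (hd : d = 1 / (10 ^ 10 * τ)) :
    (2 + 4 * bet (d ^ 2 / 64)) * 4 / d ^ 2 + 32 / d ^ 2 + bet (d ^ 2 / 64) * 32 / d + 1 ≤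
      10 ^ 145 * τ ^ 14 / 2 := by
  have hτ : 0 < τ := by linarith
  have hd0 : 0 < d := by rw [hd]; positivity
  have hd1 : d ≤ 1 := by
    rw [hd, div_le_one (by positivity)]
    nlinarith
  have e2 : ∀ x : ℝ, x / d ^ 2 = x * (10 ^ 20 * τ ^ 2) := by
    intro x
    rw [hd]
    field_simp
    try norm_num
  have e1 : ∀ x : ℝ, x / d = x * (10 ^ 10 * τ) := by
    intro x
    rw [hd]
    field_simp
  have hη : 0 < d ^ 2 / 64 := by positivity
  have hb := bet_le (d ^ 2 / 64) hη (by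
    have : d ^ 2 ≤ 1 := pow_le_one₀ hd0.le hd1
    linarith)
  have e3 : 6400000000 / (d ^ 2 / 64) ^ 3 = 1677721600000000 * (10 ^ 60 * τ ^ 6) := by
    rw [hd]
    field_simp
    norm_num
  rw [e3] at hb
  rw [e2, e2, e1]
  have p1 : (1 : ℝ) ≤ τ ^ 14 := one_le_pow₀ h
  have p2 : τ ^ 2 ≤ τ ^ 14 := pow_le_pow_right₀ h (by norm_num)
  have p7 : τ ^ 7 ≤ τ ^ 14 := pow_le_pow_right₀ h (by norm_num)
  have p8 : τ ^ 8 ≤ τ ^ 14 := pow_le_pow_right₀ h (by norm_num)
  have q1 : bet (d ^ 2 / 64) * τ ^ 2 ≤ 1677721600000000 * (10 ^ 60 * τ ^ 6) * τ ^ 2 :=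
    mul_le_mul_of_nonneg_right hb (by positivity)
  have q2 : bet (d ^ 2 / 64) * τ ≤ 1677721600000000 * (10 ^ 60 * τ ^ 6) * τ :=
    mul_le_mul_of_nonneg_right hb (by positivity)
  have r1 : 1677721600000000 * (10 ^ 60 * τ ^ 6) * τ ^ 2 = 1677721600000000 * 10 ^ 60 * τ ^ 8 := by
    ring
  have r2 : 1677721600000000 * (10 ^ 60 * τ ^ 6) * τ = 1677721600000000 * 10 ^ 60 * τ ^ 7 := by
    ring
  rw [r1] at q1
  rw [r2] at q2
  have s : (2 + 4 * bet (d ^ 2 / 64)) * 4 * (10 ^ 20 * τ ^ 2) + 32 * (10 ^ 20 * τ ^ 2) +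
      bet (d ^ 2 / 64) * 32 * (10 ^ 10 * τ) + 1 =
      40 * 10 ^ 20 * τ ^ 2 + 16 * 10 ^ 20 * (bet (d ^ 2 / 64) * τ ^ 2) +
      32 * 10 ^ 10 * (bet (d ^ 2 / 64) * τ) + 1 := by ring
  rw [s]
  norm_num at q1 q2 ⊢
  linarith

theorem thr_core (T : ℕ) (τ d δ c : ℝ) (hτT : τ = T) (h : 1 ≤ τ) (hd : d = 1 / (10 ^ 10 * τ))
    (hδ : δ = 1 / (10 ^ 7 * τ)) (hc : c = (d ^ 2 / 64) ^ 2 / 288) :
    3072 * ((⌈6 / δ⌉₊ : ℕ) : ℝ) ^ 2 / ((δ / 16) ^ 4 * c ^ 2) +
      2 * ((⌈6 / δ⌉₊ : ℕ) : ℝ) / ((δ / 16) ^ 2 * c) + 16 / ((δ / 16) ^ 2 * c) + 1 ≤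
      10 ^ 145 * τ ^ 14 := by
  have hτ : 0 < τ := by linarith
  have hceil : ((⌈6 / δ⌉₊ : ℕ) : ℝ) = 60000000 * τ := by
    have e : 6 / δ = ((60000000 * T : ℕ) : ℝ) := by
      rw [hδ, hτT]
      push_cast
      field_simp
      ring
    rw [e, Nat.ceil_natCast]
    push_cast
    rw [hτT]
  rw [hceil]
  have e1 : (δ / 16) ^ 4 * c ^ 2 = 1 / (160000000 ^ 4 * (1179648 * 10 ^ 40) ^ 2 * τ ^ 12) := by
    rw [hδ, hc, hd]
    field_simp
    norm_num
  have e2 : (δ / 16) ^ 2 * c = 1 / (160000000 ^ 2 * (1179648 * 10 ^ 40) * τ ^ 6) := by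
    rw [hδ, hc, hd]
    field_simp
    norm_num
  rw [e1, e2, div_div_eq_mul_div, div_one, div_div_eq_mul_div, div_one, div_div_eq_mul_div, div_one]
  have p1 : (1 : ℝ) ≤ τ ^ 14 := one_le_pow₀ h
  have p6 : τ ^ 6 ≤ τ ^ 14 := pow_le_pow_right₀ h (by norm_num)
  have p7 : τ ^ 7 ≤ τ ^ 14 := pow_le_pow_right₀ h (by norm_num)
  have s : 3072 * (60000000 * τ) ^ 2 * (160000000 ^ 4 * (1179648 * 10 ^ 40) ^ 2 * τ ^ 12) +
      2 * (60000000 * τ) * (160000000 ^ 2 * (1179648 * 10 ^ 40) * τ ^ 6) +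
      16 * (160000000 ^ 2 * (1179648 * 10 ^ 40) * τ ^ 6) + 1 =
      3072 * 60000000 ^ 2 * 160000000 ^ 4 * (1179648 * 10 ^ 40) ^ 2 * τ ^ 14 +
      2 * 60000000 * 160000000 ^ 2 * (1179648 * 10 ^ 40) * τ ^ 7 +
      16 * 160000000 ^ 2 * (1179648 * 10 ^ 40) * τ ^ 6 + 1 := by ring
  rw [s]
  norm_num
  linarith

theorem thr_four (τ κ d : ℝ) (h : 1 ≤ τ) (hd : d = 1 / (10 ^ 10 * τ)) (hκ : κ = d ^ 2 / 16) :
    27 / (κ / 8) ^ 3 + 4 / κ < 10 ^ 145 * τ ^ 14 := by
  have hτ : 0 < τ := by linarith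
  have e : 4 / κ = 64 * 10 ^ 20 * τ ^ 2 := by
    rw [hκ, hd]
    field_simp
    norm_num
  have e2 : 27 / (κ / 8) ^ 3 = 56623104 * 10 ^ 60 * τ ^ 6 := by
    rw [hκ, hd]
    field_simp
    norm_num
  rw [e, e2]
  have p2 : τ ^ 2 ≤ τ ^ 14 := pow_le_pow_right₀ h (by norm_num)
  have p6 : τ ^ 6 ≤ τ ^ 14 := pow_le_pow_right₀ h (by norm_num)
  have p1 : (1 : ℝ) ≤ τ ^ 14 := one_le_pow₀ h
  norm_num
  linarith

theorem small_part_T {q a b m T : ℕ} (hT : 1 ≤ T) (hm : 10 ^ 30 * T ^ 2 ≤ m) (hq : q ≤ 2 * m)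
    (ha : a ^ 2 ≤ 288 * q) (hb : b ^ 3 ≤ 27 * q) : 10 ^ 10 * (T * (a + b)) ≤ m := by
  have hm1 : 10 ^ 30 ≤ m := by
    have : 1 ≤ T ^ 2 := Nat.one_le_pow _ _ hT
    omega
  have h1 : 2 * 10 ^ 10 * (T * a) ≤ m := by
    have : (2 * 10 ^ 10 * (T * a)) ^ 2 ≤ m ^ 2 := by
      calc (2 * 10 ^ 10 * (T * a)) ^ 2 = (4 * 10 ^ 20 * T ^ 2) * a ^ 2 := by ring
        _ ≤ (4 * 10 ^ 20 * T ^ 2) * (288 * q) := Nat.mul_le_mul_left _ ha
        _ = (1152 * 10 ^ 20 * T ^ 2) * q := by ring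
        _ ≤ (1152 * 10 ^ 20 * T ^ 2) * (2 * m) := Nat.mul_le_mul_left _ hq
        _ = (2304 * 10 ^ 20 * T ^ 2) * m := by ring
        _ ≤ m * m := Nat.mul_le_mul_right _ (by omega)
        _ = m ^ 2 := by ring
    exact le_of_pow_le_pow_left₀ (by norm_num) (Nat.zero_le _) this
  have h2 : 2 * 10 ^ 10 * (T * b) ≤ m := by
    have hT3 : T ^ 3 * (432 * 10 ^ 30) ≤ m * m := by
      calc T ^ 3 * (432 * 10 ^ 30) ≤ T ^ 4 * (432 * 10 ^ 30) :=
            Nat.mul_le_mul_right _ (Nat.pow_le_pow_right hT (by norm_num))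
        _ ≤ (10 ^ 30 * T ^ 2) * (10 ^ 30 * T ^ 2) := by
            have : (10 ^ 30 * T ^ 2) * (10 ^ 30 * T ^ 2) = T ^ 4 * 10 ^ 60 := by ring
            rw [this]
            exact Nat.mul_le_mul_left _ (by norm_num)
        _ ≤ m * m := Nat.mul_le_mul hm hm
    have : (2 * 10 ^ 10 * (T * b)) ^ 3 ≤ m ^ 3 := by
      calc (2 * 10 ^ 10 * (T * b)) ^ 3 = (8 * 10 ^ 30 * T ^ 3) * b ^ 3 := by ring
        _ ≤ (8 * 10 ^ 30 * T ^ 3) * (27 * q) := Nat.mul_le_mul_left _ hb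
        _ = (216 * 10 ^ 30 * T ^ 3) * q := by ring
        _ ≤ (216 * 10 ^ 30 * T ^ 3) * (2 * m) := Nat.mul_le_mul_left _ hq
        _ = (T ^ 3 * (432 * 10 ^ 30)) * m := by ring
        _ ≤ (m * m) * m := Nat.mul_le_mul_right _ hT3
        _ = m ^ 3 := by ring
    exact le_of_pow_le_pow_left₀ (by norm_num) (Nat.zero_le _) this
  have e : 10 ^ 10 * (T * (a + b)) = 10 ^ 10 * (T * a) + 10 ^ 10 * (T * b) := by ring
  rw [e]
  omega

/-- The bound for generating sets in groups of odd order, with a parameter. -/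
theorem main_top_T (G : Type) [AddCommGroup G] [Finite G] [DecidableEq G]
    (hG : Odd (Nat.card G)) (A : Finset G) (hcl : AddSubgroup.closure (A : Set G) = ⊤)
    (hZ : ZSF A) (T : ℕ) (hT : 1 ≤ T) (hMT : 10 ^ 145 * T ^ 14 ≤ A.card) :
    100 * (T : ℤ) * (A.card : ℤ) ^ 2 + (100 * T - 1) * A.card + 400 * T ≤
      200 * T * A.subsetSum.card := by
  have hM : 10 ^ 145 ≤ A.card := by
    have : 1 ≤ T ^ 14 := Nat.one_le_pow _ _ hT
    exact le_trans (Nat.le_mul_of_pos_right _ this) hMT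
  obtain ⟨τ, hτ⟩ : ∃ τ : ℝ, τ = T := ⟨_, rfl⟩
  have hτ1 : 1 ≤ τ := by rw [hτ]; exact_mod_cast hT
  have hτ0 : 0 < τ := by linarith
  obtain ⟨d, hd⟩ : ∃ d : ℝ, d = 1 / (10 ^ 10 * τ) := ⟨_, rfl⟩
  obtain ⟨δ, hδ⟩ : ∃ δ : ℝ, δ = 1 / (10 ^ 7 * τ) := ⟨_, rfl⟩
  have hd0 : 0 < d := by rw [hd]; positivity
  have hd1 : d ≤ 1 / 10 ^ 10 := by
    rw [hd]
    apply one_div_le_one_div_of_le (by norm_num)
    exact le_mul_of_one_le_right (by norm_num) hτ1
  have hδ0 : 0 < δ := by rw [hδ]; positivity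
  have hδ1 : δ ≤ 1 / 10 ^ 7 := by
    rw [hδ]
    apply one_div_le_one_div_of_le (by norm_num)
    exact le_mul_of_one_le_right (by norm_num) hτ1
  have hδτ : δ * τ = 1 / 10 ^ 7 := by
    rw [hδ]
    field_simp
  have hdδ : d = δ / 1000 := by
    rw [hδ, hd]
    field_simp
    norm_num
  obtain ⟨η, hη⟩ : ∃ η : ℝ, η = d ^ 2 / 64 := ⟨_, rfl⟩
  have hη0 : 0 < η := by rw [hη]; positivity
  have hη4 : η < 1 / 4 := by rw [hη]; nlinarith
  have hbt0 : 0 ≤ bet η := by unfold bet thr; positivity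
  obtain ⟨c, hc⟩ : ∃ c : ℝ, c = (d ^ 2 / 64) ^ 2 / 288 := ⟨_, rfl⟩
  have hc0 : 0 < c := by rw [hc]; positivity
  obtain ⟨κ, hκ⟩ : ∃ κ : ℝ, κ = d ^ 2 / 16 := ⟨_, rfl⟩
  have hκ0 : 0 < κ := by rw [hκ]; positivity
  have hκ1 : κ ≤ 1 / 10 ^ 10 := by rw [hκ]; nlinarith
  by_contra hcon
  push Not at hcon
  obtain ⟨m, hm⟩ : ∃ m, m = A.card := ⟨_, rfl⟩
  rw [← hm] at hM hcon
  have hm24 : 10 ^ 24 ≤ m := le_trans (by norm_num) hM
  have hm145 : (10 ^ 145 : ℝ) ≤ m := by exact_mod_cast hM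
  rw [← hm] at hMT
  have hmT : 10 ^ 145 * τ ^ 14 ≤ (m : ℝ) := by
    rw [hτ]
    exact_mod_cast hMT
  have hmr : (10 ^ 24 : ℝ) ≤ m := by exact_mod_cast hm24
  have hm0 : (0 : ℝ) < m := by linarith
  have hTz : (1 : ℤ) ≤ T := by exact_mod_cast hT
  have hsum : 2 * A.subsetSum.card ≤ m ^ 2 + 2 * m := by
    by_contra h
    push Not at h
    have h' : ((m : ℤ) ^ 2 + 2 * m) ≤ 2 * A.subsetSum.card := by exact_mod_cast h.le
    have h2 := mul_le_mul_of_nonneg_left h' (by omega : (0 : ℤ) ≤ T)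
    have h4 : (T : ℤ) * 10 ^ 24 ≤ T * m :=
      mul_le_mul_of_nonneg_left (by exact_mod_cast hm24) (by omega)
    have h5 : (0 : ℤ) ≤ m := by positivity
    norm_num at h4
    linarith
  have hm4 : 27 / (κ / 8) ^ 3 + 4 / κ < (m : ℝ) := (thr_four τ κ d hτ1 hd hκ).trans_le hmT
  have hsumr : (A.subsetSum.card : ℝ) ≤ (m : ℝ) ^ 2 / 2 + m := by
    have h2 : (2 : ℝ) * A.subsetSum.card ≤ (m : ℝ) ^ 2 + 2 * m := by exact_mod_cast hsum
    linarith
  have hmm : (10 ^ 24 : ℝ) * m ≤ (m : ℝ) ^ 2 := by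
    rw [sq]; exact mul_le_mul_of_nonneg_right hmr hm0.le
  -- remove the involutions
  obtain ⟨A', hA'⟩ : ∃ A', A' = A.filter (fun x => x + x ≠ 0) := ⟨_, rfl⟩
  obtain ⟨hNI, hZ', hcard'⟩ := split_invol A hZ
  have hinv := invol_small A hZ
  rw [← hA'] at hNI hZ' hcard'
  rw [← hm] at hcard'
  obtain ⟨r, hr⟩ : ∃ r, r = (A.filter (fun x => x + x = 0)).card := ⟨_, rfl⟩
  rw [← hr] at hinv hcard'
  have hA'A : A' ⊆ A := by rw [hA']; exact Finset.filter_subset _ _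
  have hrb : (r : ℝ) ≤ κ / 8 * m := by
    apply invol_bound (T := A.subsetSum.card) (by positivity)
    · exact_mod_cast hinv
    · linarith
    · have : 0 < 4 / κ := by positivity
      linarith
  have hcard'r : (A'.card : ℝ) = m - r := by
    have : (A'.card : ℝ) + r = m := by exact_mod_cast hcard'
    linarith
  have hA'big : (1 - κ / 8) * m ≤ A'.card := by rw [hcard'r]; linarith
  have hA'le : (A'.card : ℝ) ≤ m := by rw [hcard'r]; linarith [Nat.cast_nonneg (α := ℝ) r]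
  have hA'half : (m : ℝ) / 2 ≤ A'.card := by
    have h1 : (1 / 2 : ℝ) ≤ 1 - κ / 8 := by linarith
    have h2 := mul_le_mul_of_nonneg_right h1 hm0.le
    linarith
  have hM1A : (2 + 4 * bet η) * 4 / d ^ 2 + 32 / d ^ 2 + bet η * 32 / d + 1 ≤ (A'.card : ℝ) := by
    have h1 : (10 ^ 145 * τ ^ 14) / 2 ≤ (A'.card : ℝ) := by linarith
    refine le_trans ?_ h1
    rw [hη]
    exact thr_near τ d hτ1 hd
  have hsumA' : A'.subsetSum.card ≤ A.subsetSum.card :=
    Finset.card_le_card (Finset.subsetSum_mono hA'A)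
  have hsumA'r : (A'.subsetSum.card : ℝ) ≤ (m : ℝ) ^ 2 / 2 + m :=
    le_trans (by exact_mod_cast hsumA') hsumr
  have hnear : (A'.subsetSum.card : ℝ) ≤ (1 + κ) * (1 / 2) * (A'.card : ℝ) ^ 2 := by
    apply near_arith' κ m A'.card _ hκ0 (by linarith) hm0 _ hA'big hsumA'r
    have h1 : 0 < 27 / (κ / 8) ^ 3 := by positivity
    linarith
  have hind : ∀ X ⊆ A', (X.subsetSum.card : ℝ) + 1 * (1 / 2 - 2 * (d ^ 2 / 64)) *
      ((A' \ X).card : ℝ) ^ 2 - bet η * (A' \ X).card ≤ A'.subsetSum.card := by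
    intro X hX
    have hun : X ∪ (A' \ X) = A' := Finset.union_sdiff_of_subset hX
    have h := main_ind η hη0 hη4 (A' \ X).card X (A' \ X) Finset.disjoint_sdiff
      (by rw [hun]; exact hZ') (by rw [hun]; exact hNI) rfl
    rw [hun, hη] at h
    rw [one_mul, hη]
    exact h
  obtain ⟨X, hXA, rho, hX1, hrho1, hrho2, hgr, hXS⟩ := near_eq_abs' d hd0 (by linarith) (bet η) hbt0
    G 1 (by norm_num) le_rfl A' hind hM1A (by rw [← hκ]; exact hnear)
  obtain ⟨R, hR⟩ : ∃ R, R = A' \ X := ⟨_, rfl⟩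
  rw [← hR] at hrho1 hgr
  have hRA' : R ⊆ A' := by rw [hR]; exact Finset.sdiff_subset
  have hRA : R ⊆ A := hRA'.trans hA'A
  have hRcard : R.card ≤ m := by rw [hm]; exact Finset.card_le_card hRA
  have hrho1r : (rho : ℝ) ≤ R.card := by exact_mod_cast hrho1
  have hRcardr : (R.card : ℝ) ≤ m := by exact_mod_cast hRcard
  have hrhobig : (1 - 3 * d) * (m : ℝ) ≤ rho := by
    have h1 : (1 - 2 * d) * ((1 - κ / 8) * m) ≤ (1 - 2 * d) * A'.card :=
      mul_le_mul_of_nonneg_left hA'big (by linarith)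
    have h2 : κ ≤ d := by
      rw [hκ]
      have h3 := mul_le_mul_of_nonneg_left hd1 hd0.le
      have h4 : d ^ 2 = d * d := sq d
      rw [h4]
      linarith
    have h3 : (1 - 3 * d) ≤ (1 - 2 * d) * (1 - κ / 8) := by
      have e : (1 - 2 * d) * (1 - κ / 8) = 1 - 2 * d - κ / 8 + d * κ / 4 := by ring
      have e2 := mul_pos hd0 hκ0
      rw [e]
      linarith
    have h4 := mul_le_mul_of_nonneg_right h3 hm0.le
    linarith
  have hd3 : 3 * d ≤ 3 / 10 ^ 10 := by linarith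
  have hrho99 : 99 / 100 * (m : ℝ) ≤ rho := by
    have h1 : (99 / 100 : ℝ) ≤ 1 - 3 * d := by linarith
    have h2 := mul_le_mul_of_nonneg_right h1 hm0.le
    linarith
  have hrho0 : (0 : ℝ) < rho := by linarith
  have hZR : ZSF R := hZ.mono hRA
  have hNR : NI R := hNI.mono hRA'
  -- lower bounds for the sumsets
  have hlowA : 9 / 20 * (m : ℝ) ^ 2 + 1 ≤ A.subsetSum.card := by
    have h := low920 G A hZ (by rw [← hm]; exact le_trans (by norm_num) hm145)
    rw [← hm] at h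
    exact h
  have hGcard : (A.subsetSum.card : ℝ) ≤ Nat.card G := by
    have : Fintype G := Fintype.ofFinite G
    rw [Nat.card_eq_fintype_card]
    exact_mod_cast Finset.card_le_univ _
  -- R generates
  have hclR : AddSubgroup.closure (R : Set G) = ⊤ := by
    by_contra hne
    rw [← hcl] at hne
    have h1 := doubling A R hRA hne
    have h2 := low920 G R hZR (by
      have h3 : (10 ^ 145 : ℝ) / 2 ≤ R.card := by linarith
      exact le_trans (by norm_num) h3)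
    have h3 : (2 : ℝ) * R.subsetSum.card ≤ A.subsetSum.card := by exact_mod_cast h1
    have h4 : (99 / 100 * (m : ℝ)) ^ 2 ≤ (R.card : ℝ) ^ 2 :=
      pow_le_pow_left₀ (by positivity) (by linarith) 2
    have h5 : (99 / 100 * (m : ℝ)) ^ 2 = 9801 / 10000 * (m : ℝ) ^ 2 := by ring
    have h6 : (0 : ℝ) ≤ (m : ℝ) ^ 2 := by positivity
    rw [h5] at h4
    linarith
  -- apply the core theorem
  have hXbig : c * (m : ℝ) ^ 2 ≤ X.subsetSum.card := by
    have h1 := crude_bound X.card X rfl (hZ'.mono hXA) (hNI.mono hXA)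
    have h2 : (X.card : ℝ) ^ 2 ≤ 288 * X.subsetSum.card := by exact_mod_cast h1
    have h3 : d ^ 2 / 64 * (m : ℝ) ≤ X.card := by
      have h4 : d ^ 2 / 32 * ((m : ℝ) / 2) ≤ d ^ 2 / 32 * A'.card :=
        mul_le_mul_of_nonneg_left hA'half (by positivity)
      linarith
    have h4 : (d ^ 2 / 64 * (m : ℝ)) ^ 2 ≤ (X.card : ℝ) ^ 2 :=
      pow_le_pow_left₀ (by positivity) h3 2
    rw [hc]
    have h5 : (d ^ 2 / 64 * (m : ℝ)) ^ 2 = (d ^ 2 / 64) ^ 2 * (m : ℝ) ^ 2 := by ring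
    rw [h5] at h4
    linarith
  have : Fintype G := Fintype.ofFinite G
  have hsymR : (sym R).card = 2 * R.card + 1 := card_sym R hZR hNR
  obtain ⟨lam, hlam⟩ : ∃ lam : ℝ, lam = (1 + d) * rho := ⟨_, rfl⟩
  have hrhom : (rho : ℝ) ≤ m := by linarith
  have hlam0 : 0 < lam := by rw [hlam]; positivity
  have hlamm : lam ≤ (1 + d) * m := by
    rw [hlam]; exact mul_le_mul_of_nonneg_left hrhom (by linarith)
  have hthr : 3072 * ((⌈6 / δ⌉₊ : ℕ) : ℝ) ^ 2 / ((δ / 16) ^ 4 * c ^ 2) +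
      2 * ((⌈6 / δ⌉₊ : ℕ) : ℝ) / ((δ / 16) ^ 2 * c) + 16 / ((δ / 16) ^ 2 * c) + 1 ≤ (m : ℝ) :=
    (thr_core T τ d δ c hτ hτ1 hd hδ hc).trans hmT
  obtain ⟨W, L, w, hW, hL, hsurj, hkerL, hwR⟩ := core' δ c hδ0 (hδ1.trans (by norm_num)) hc0
    G R X.subsetSum m lam hclR hthr hRcard
    hlam0 (by
      have : (1 + d) * (m : ℝ) ≤ 2 * m := mul_le_mul_of_nonneg_right (by linarith) hm0.le
      linarith) (by
      rw [hsymR, hlam]
      push_cast
      have : (1 + d) * (rho : ℝ) ≤ (1 + 1 / 10 ^ 10) * R.card := by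
        apply mul_le_mul (by linarith) hrho1r hrho0.le (by norm_num)
      have h0 : (0 : ℝ) ≤ R.card := by positivity
      linarith) hXbig (by
      have h1 : (X.subsetSum.card : ℝ) ≤ 3 * d * (m : ℝ) ^ 2 := by
        refine hXS.trans ?_
        have h2 : (A'.card : ℝ) ^ 2 ≤ (m : ℝ) ^ 2 := pow_le_pow_left₀ (by positivity) hA'le 2
        have h3 := mul_le_mul_of_nonneg_left h2 (by positivity : (0 : ℝ) ≤ 3 * d)
        linarith
      have h2 : 9 / 20 * (m : ℝ) ^ 2 ≤ Fintype.card G := by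
        rw [← Nat.card_eq_fintype_card]; linarith
      have h3 : δ / 16 * (9 / 20 * (m : ℝ) ^ 2) ≤ δ / 16 * Fintype.card G :=
        mul_le_mul_of_nonneg_left h2 (by positivity)
      have h4 : 3 * d * (m : ℝ) ^ 2 < δ / 16 * (9 / 20 * (m : ℝ) ^ 2) := by
        rw [hdδ]
        have : (0 : ℝ) < δ * (m : ℝ) ^ 2 := by positivity
        linarith
      linarith) (by
      intro y hy
      have := hgr y hy
      rw [mul_one] at this
      rw [hlam]
      exact this)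
  obtain ⟨q, hq⟩ : ∃ q, q = Nat.card w.ker := ⟨_, rfl⟩
  rw [← hq] at hkerL
  have hqL : 1000000 * (q * L) ≤ 1000001 * m := by
    have h1 : (q : ℝ) * L ≤ (1 + δ) * ((1 + d) * m) :=
      hkerL.trans (mul_le_mul_of_nonneg_left hlamm (by linarith))
    have h2 : (1 + δ) * (1 + d) ≤ 1000001 / 1000000 := by
      have h5 := mul_le_mul_of_nonneg_left hδ1 hδ0.le
      rw [hdδ]
      norm_num at h5 hδ1
      linarith
    have h3 := mul_le_mul_of_nonneg_right h2 hm0.le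
    have h4 : (1000000 : ℝ) * (q * L) ≤ 1000001 * m := by linarith
    exact_mod_cast h4
  have hqLT : 1000000 * (T * (q * L)) ≤ 1000000 * (T * m) + m := by
    have h1 : (q : ℝ) * L ≤ (1 + δ) * ((1 + d) * m) :=
      hkerL.trans (mul_le_mul_of_nonneg_left hlamm (by linarith))
    have h2 : τ * ((1 + δ) * (1 + d)) ≤ τ + 1 / 1000000 := by
      have e : τ * ((1 + δ) * (1 + δ / 1000)) =
          τ + (δ * τ) * (1001 / 1000) + (δ * τ) * (δ / 1000) := by ring
      rw [hdδ, e, hδτ]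
      norm_num at hδ1 ⊢
      linarith
    have h3 := mul_le_mul_of_nonneg_right h2 hm0.le
    have h4 := mul_le_mul_of_nonneg_left h1 hτ0.le
    have h5 : (1000000 : ℝ) * (τ * (q * L)) ≤ 1000000 * (τ * m) + m := by linarith
    rw [hτ] at h5
    exact_mod_cast h5
  have hqpos : 0 < q := by rw [hq]; exact Nat.card_pos
  have hLW : L < W := by
    by_contra hc2
    push Not at hc2
    have h1 := card_le_ker_mul hW w A.subsetSum
    rw [← hq] at h1
    have h2 : q * W ≤ q * L := Nat.mul_le_mul_left _ hc2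
    have h3 : A.subsetSum.card ≤ 2 * m := by omega
    have h4 : (A.subsetSum.card : ℝ) ≤ 2 * m := by exact_mod_cast h3
    linarith
  have hq2m : q ≤ 2 * m := by
    have : q * 1 ≤ q * L := Nat.mul_le_mul_left _ hL
    omega
  obtain ⟨A0, hA0⟩ : ∃ A0, A0 = A.filter (fun x => w x = 0) := ⟨_, rfl⟩
  obtain ⟨a, b, hab, ha2, hb3⟩ := small_part w.ker A0 (by
    rw [hA0]; exact hZ.mono (Finset.filter_subset _ _)) (by
    intro x hx
    rw [hA0] at hx
    rw [AddMonoidHom.mem_ker]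
    exact (Finset.mem_filter.1 hx).2)
  rw [← hq] at ha2 hb3
  have ht8 := small_part_m hm24 hq2m ha2 hb3
  rw [← hab] at ht8
  have hoddq : Odd q := by
    rw [hq]
    exact Odd.of_dvd_nat hG (AddSubgroup.card_addSubgroup_dvd_card _)
  have hT2 : T ^ 2 ≤ T ^ 14 := Nat.pow_le_pow_right hT (by norm_num)
  have hT1 : T ≤ T ^ 14 := Nat.le_self_pow (by norm_num) T
  have hMT24 : 10 ^ 24 * T ≤ m :=
    (Nat.mul_le_mul (by norm_num : 10 ^ 24 ≤ 10 ^ 145) hT1).trans hMT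
  have hMT30 : 10 ^ 30 * T ^ 2 ≤ m :=
    (Nat.mul_le_mul (by norm_num : 10 ^ 30 ≤ 10 ^ 145) hT2).trans hMT
  have ht8T := small_part_T hT hMT30 hq2m ha2 hb3
  rw [← hab] at ht8T
  have hR1T : 10000000 * (T * m) ≤
      10000000 * (T * (R.filter (fun x => w x ≠ 0)).card) + m := by
    have h1 : (R.filter (fun x => w x = 0)).card + (R.filter (fun x => w x ≠ 0)).card = R.card :=
      Finset.card_filter_add_card_filter_not _
    have h2 : (R.filter (fun x => w x = 0)).card ≤ A0.card := by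
      rw [hA0]
      exact Finset.card_le_card (Finset.filter_subset_filter _ hRA)
    have h3 : 10000000000 * (τ * (m : ℝ)) ≤ 10000000000 * (τ * R.card) + 3 * m := by
      have h4 : (1 - 3 * d) * (m : ℝ) ≤ R.card := by linarith
      have h5 := mul_le_mul_of_nonneg_left h4 hτ0.le
      have e : τ * ((1 - 3 * d) * (m : ℝ)) = τ * m - 3 / 1000 * (δ * τ) * m := by
        rw [hdδ]; ring
      rw [e, hδτ] at h5
      norm_num at h5
      linarith
    have h4 : 10000000000 * (T * m) ≤ 10000000000 * (T * R.card) + 3 * m := by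
      rw [hτ] at h3
      exact_mod_cast h3
    clear h3
    have h5 : T * (R.filter (fun x => w x = 0)).card + T * (R.filter (fun x => w x ≠ 0)).card =
        T * R.card := by rw [← mul_add, h1]
    have h6 : T * (R.filter (fun x => w x = 0)).card ≤ T * A0.card := Nat.mul_le_mul_left _ h2
    omega
  apply hcon.not_ge
  apply assemble_T hW w hsurj A R hZ hRA m q L hm.symm hm24 hq hoddq hL hLW hwR hqL _ _ hsum T hT
    hMT24 hqLT hR1T
  · have h1 : (R.filter (fun x => w x = 0)).card + (R.filter (fun x => w x ≠ 0)).card = R.card :=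
      Finset.card_filter_add_card_filter_not _
    have h2 : (R.filter (fun x => w x = 0)).card ≤ A0.card := by
      rw [hA0]
      exact Finset.card_le_card (Finset.filter_subset_filter _ hRA)
    have h3 : 9999999997 * (m : ℝ) ≤ 10000000000 * R.card := by
      have h4 : 1 - 3 / 10 ^ 10 ≤ 1 - 3 * d := by linarith
      have h5 := mul_le_mul_of_nonneg_right h4 hm0.le
      linarith
    have h4 : 9999999997 * m ≤ 10000000000 * R.card := by exact_mod_cast h3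
    clear h3
    omega
  · intro hq10
    rw [← hA0, hab]
    exact small_part_large hq10 ha2 hb3


end Pool.Agent.H96.ZF
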