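import Mathlib
import Pool.Agent.H96.ZF.OddT

set_option autoImplicit false
set_option linter.unusedSectionVars false

/-!
# The second order term in groups without elements of order two
-/

open Finset
open scoped Pointwise

universe u

namespace Pool.Agent.H96.ZF

open Pool.Agent.Helper398 Pool.Agent.Y99.ZS

/-- The lower bound in finite abelian groups of odd order, with a parameter. -/
theorem main_exact_T (G : Type) [AddCommGroup G] [Finite G] [DecidableEq G]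
    (hG : Odd (Nat.card G)) (A : Finset G) (hZ : ZSF A) (T : ℕ) (hT : 1 ≤ T)
    (hA : 10 ^ 145 * T ^ 14 ≤ A.card) :
    100 * (T : ℤ) * (A.card : ℤ) ^ 2 + (100 * T - 1) * A.card + 400 * T ≤
      200 * T * A.subsetSum.card := by
  have h1 := main_top_T (AddSubgroup.closure (A : Set G))
    (Odd.of_dvd_nat hG (AddSubgroup.card_addSubgroup_dvd_card _))
    (toSub (AddSubgroup.closure (A : Set G)) A) (closure_toSub A) (ZSF_toSub _ A hZ) T hT
  have h2 : (toSub (AddSubgroup.closure (A : Set G)) A).card = A.card := by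
    rw [card_toSub, inSub_closure]
  rw [h2] at h1
  refine (h1 hA).trans (mul_le_mul_of_nonneg_left ?_ (by positivity))
  rw [Nat.cast_le]
  apply Finset.card_le_card_of_injOn (fun x : AddSubgroup.closure (A : Set G) => (x : G))
  · intro x hx
    rw [Finset.mem_coe, Finset.mem_subsetSum_iff] at hx
    obtain ⟨B, hB, rfl⟩ := hx
    rw [Finset.mem_coe, Finset.mem_subsetSum_iff]
    refine ⟨B.map (Function.Embedding.subtype _), ?_, (sum_coe_sub _ B).symm⟩
    intro y hy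
    rw [Finset.mem_map] at hy
    obtain ⟨z, hz, rfl⟩ := hy
    exact (mem_toSub _ _ _).1 (hB hz)
  · intro x _ y _ hxy
    exact Subtype.ext hxy


/-- The lower bound in all abelian groups without elements of order two, with a parameter. -/
theorem noTwo_T (G : Type u) [AddCommGroup G] (h2 : ∀ x : G, x + x = 0 → x = 0)
    (A : Finset G) (V : Set G)
    (hV : ∀ s, s ∈ V ↔ ∃ B : Finset G, B ⊆ A ∧ B.Nonempty ∧ ∑ b ∈ B, b = s) (h0 : (0 : G) ∉ V)
    (T : ℕ) (hT : 1 ≤ T) (hA : 10 ^ 145 * T ^ 14 ≤ A.card) :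
    (A.card : ℝ) ^ 2 / 2 + (1 / 2 - 1 / (200 * T)) * A.card + 1 ≤ V.ncard := by
  classical
  have hZ : ZSF A := fun B hB hne hs => h0 ((hV 0).2 ⟨B, hB, hne, hs⟩)
  obtain ⟨H, _, _, _, A', hodd, hZ', hc, hle⟩ := transfer_odd G h2 A hZ
  have h1 := main_exact_T H hodd A' hZ' T hT (by rw [hc]; exact hA)
  have h3 := (ncard_all A V hV h0).2
  rw [hc] at h1
  have h4 : ((100 * (T : ℤ) * (A.card : ℤ) ^ 2 + (100 * T - 1) * A.card + 400 * T : ℤ) : ℝ) ≤
      ((200 * T * A'.subsetSum.card : ℤ) : ℝ) := by exact_mod_cast h1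
  push_cast at h4
  have h5 : (A'.subsetSum.card : ℝ) ≤ V.ncard + 1 := by
    have : A'.subsetSum.card ≤ V.ncard + 1 := by rw [h3]; exact hle
    exact_mod_cast this
  have hT0 : (0 : ℝ) < T := by
    have : 0 < T := hT
    exact_mod_cast this
  have h6 := mul_le_mul_of_nonneg_left h5 (by positivity : (0 : ℝ) ≤ 200 * T)
  have e : (200 * (T : ℝ)) * ((A.card : ℝ) ^ 2 / 2 + (1 / 2 - 1 / (200 * T)) * A.card + 1) =
      100 * T * (A.card : ℝ) ^ 2 + (100 * T - 1) * A.card + 200 * T := by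
    field_simp
    ring
  have h7 : (200 * (T : ℝ)) * ((A.card : ℝ) ^ 2 / 2 + (1 / 2 - 1 / (200 * T)) * A.card + 1) ≤
      200 * T * V.ncard := by
    rw [e]
    linarith
  exact le_of_mul_le_mul_left h7 (by positivity)

/-- The second order term: `k²/2 + k/2 - 10⁹ k^(13/14)`. -/
theorem noTwo_power (G : Type u) [AddCommGroup G] (h2 : ∀ x : G, x + x = 0 → x = 0)
    (A : Finset G) (V : Set G)
    (hV : ∀ s, s ∈ V ↔ ∃ B : Finset G, B ⊆ A ∧ B.Nonempty ∧ ∑ b ∈ B, b = s) (h0 : (0 : G) ∉ V)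
    (hA : 10 ^ 145 ≤ A.card) :
    (A.card : ℝ) ^ 2 / 2 + A.card / 2 - 10 ^ 9 * (A.card : ℝ) ^ (13 / 14 : ℝ) ≤ V.ncard := by
  obtain ⟨k, hk⟩ : ∃ k : ℝ, k = A.card := ⟨_, rfl⟩
  have hkA : (10 ^ 145 : ℝ) ≤ k := by rw [hk]; exact_mod_cast hA
  have hk0 : 0 < k := lt_of_lt_of_le (by norm_num) hkA
  obtain ⟨s, hs⟩ : ∃ s : ℝ, s = (k / 10 ^ 145) ^ (1 / 14 : ℝ) := ⟨_, rfl⟩
  obtain ⟨y, hy⟩ : ∃ y : ℝ, y = k ^ (1 / 14 : ℝ) := ⟨_, rfl⟩
  have hy0 : 0 ≤ y := by rw [hy]; positivity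
  have hs0 : 0 ≤ s := by rw [hs]; positivity
  have hy14 : y ^ 14 = k := by
    rw [hy, ← Real.rpow_natCast, ← Real.rpow_mul hk0.le]
    norm_num
  have hs14 : s ^ 14 = k / 10 ^ 145 := by
    rw [hs, ← Real.rpow_natCast, ← Real.rpow_mul (by positivity)]
    norm_num
  have hy13 : k ^ (13 / 14 : ℝ) = y ^ 13 := by
    rw [hy, ← Real.rpow_natCast, ← Real.rpow_mul hk0.le]
    norm_num
  have hs1 : 1 ≤ s := by
    apply le_of_pow_le_pow_left₀ (n := 14) (by norm_num) hs0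
    rw [hs14, one_pow, le_div_iff₀ (by positivity), one_mul]
    exact hkA
  have hys : y ≤ 10 ^ 11 * s := by
    apply le_of_pow_le_pow_left₀ (n := 14) (by norm_num) (by positivity)
    rw [hy14, mul_pow, hs14]
    have e : ((10 : ℝ) ^ 11) ^ 14 * (k / 10 ^ 145) = 10 ^ 9 * k := by
      field_simp
    rw [e]
    norm_num
    linarith
  obtain ⟨T, hT⟩ : ∃ T : ℕ, T = ⌊s⌋₊ := ⟨_, rfl⟩
  have hTs : (T : ℝ) ≤ s := by rw [hT]; exact Nat.floor_le hs0
  have hTs2 : s < T + 1 := by rw [hT]; exact Nat.lt_floor_add_one s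
  have hT1 : 1 ≤ T := by rw [hT]; exact Nat.one_le_floor_iff s |>.2 hs1
  have hT1r : (1 : ℝ) ≤ T := by exact_mod_cast hT1
  have hTs3 : s ≤ 2 * T := by linarith
  have h1 : 10 ^ 145 * T ^ 14 ≤ A.card := by
    have h3 : (T : ℝ) ^ 14 ≤ s ^ 14 := pow_le_pow_left₀ (by linarith) hTs 14
    rw [hs14, le_div_iff₀ (by positivity), hk] at h3
    have h4 : (10 : ℝ) ^ 145 * T ^ 14 ≤ (A.card : ℝ) := by linarith
    exact_mod_cast h4
  have h3 := noTwo_T G h2 A V hV h0 T hT1 h1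
  rw [← hk] at h3 ⊢
  rw [hy13]
  have hsp : 0 < s := by linarith
  have h5 : 1 / (200 * (T : ℝ)) * k ≤ 10 ^ 9 * y ^ 13 := by
    have h6 : 1 / (200 * (T : ℝ)) ≤ 1 / (100 * s) := by
      apply one_div_le_one_div_of_le (by positivity)
      linarith
    have h7 : 1 / (200 * (T : ℝ)) * k ≤ 1 / (100 * s) * k := mul_le_mul_of_nonneg_right h6 hk0.le
    refine h7.trans ?_
    rw [one_div_mul_eq_div, div_le_iff₀ (by positivity), ← hy14]
    have h8 : y ^ 13 * y ≤ y ^ 13 * (10 ^ 11 * s) := mul_le_mul_of_nonneg_left hys (by positivity)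
    have e1 : y ^ 14 = y ^ 13 * y := by ring
    have e2 : 10 ^ 9 * y ^ 13 * (100 * s) = y ^ 13 * (10 ^ 11 * s) := by ring
    rw [e1, e2]
    exact h8
  have e3 : (1 / 2 - 1 / (200 * (T : ℝ))) * k = k / 2 - 1 / (200 * T) * k := by ring
  rw [e3] at h3
  linarith

end Pool.Agent.H96.ZF
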